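import Pool.Agent.Lib_helper51.EclS.AllS
import Pool.Agent.Lib_helper51.EclS.Tree
import Pool.Agent.Lib_helper51.EclC.B0
import Pool.Agent.Lib_helper51.EclC.B1
import Pool.Agent.Lib_helper51.EclC.B2
import Pool.Agent.Lib_helper51.EclC.B3
import Pool.Agent.Lib_helper51.EclC.B4
import Pool.Agent.Lib_helper51.EclC.B5
import Pool.Agent.Lib_helper51.EclC.B6
import Pool.Agent.Lib_helper51.EclC.B7
import Pool.Agent.Lib_helper51.EclC.B8
import Pool.Agent.Lib_helper51.EclC.B9
import Pool.Agent.Lib_helper51.EclC.B10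
import Pool.Agent.Lib_helper51.EclC.B11
import Pool.Agent.Lib_helper51.EclC.B12
import Pool.Agent.Lib_helper51.EclC.B13
import Pool.Agent.Lib_helper51.EclC.B14
import Pool.Agent.Lib_helper51.EclC.B15
import Pool.Agent.Lib_helper51.EclC.B16
import Pool.Agent.Lib_helper51.EclC.B17
import Pool.Agent.Lib_helper51.EclC.B18
import Pool.Agent.Lib_helper51.EclC.B19
import Pool.Agent.Lib_helper51.EclC.B20
import Pool.Agent.Lib_helper51.EclC.B21
import Pool.Agent.Lib_helper51.EclC.B22
import Pool.Agent.Lib_helper51.EclC.B23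
import Pool.Agent.Lib_helper51.EclC.B24
import Pool.Agent.Lib_helper51.EclC.B25
import Pool.Agent.Lib_helper51.EclC.B26
import Pool.Agent.Lib_helper51.EclC.B27
import Pool.Agent.Lib_helper51.EclC.B28
import Pool.Agent.Lib_helper51.EclC.B29
import Pool.Agent.Lib_helper51.EclC.B30
import Pool.Agent.Lib_helper51.EclC.B31
import Pool.Agent.Lib_helper51.EclC.B32
import Pool.Agent.Lib_helper51.EclC.B33
import Pool.Agent.Lib_helper51.EclC.B34
import Pool.Agent.Lib_helper51.EclC.B35
import Pool.Agent.Lib_helper51.EclC.B36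
import Pool.Agent.Lib_helper51.EclC.B37
import Pool.Agent.Lib_helper51.EclC.B38
import Pool.Agent.Lib_helper51.EclC.B39
import Pool.Agent.Lib_helper51.EclC.B40
import Pool.Agent.Lib_helper51.EclC.B41
import Pool.Agent.Lib_helper51.EclC.B42
import Pool.Agent.Lib_helper51.EclC.B43
import Pool.Agent.Lib_helper51.EclC.B44
import Pool.Agent.Lib_helper51.EclC.B45
import Pool.Agent.Lib_helper51.EclC.B46
import Pool.Agent.Lib_helper51.EclC.B47
import Pool.Agent.Lib_helper51.EclC.B48
import Pool.Agent.Lib_helper51.EclC.B49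
import Pool.Agent.Lib_helper51.EclC.B50
import Pool.Agent.Lib_helper51.EclC.B51
import Pool.Agent.Lib_helper51.EclC.B52
import Pool.Agent.Lib_helper51.EclC.B53
import Pool.Agent.Lib_helper51.EclC.B54
import Pool.Agent.Lib_helper51.EclC.B55
import Pool.Agent.Lib_helper51.EclC.B56
import Pool.Agent.Lib_helper51.EclC.B57
import Pool.Agent.Lib_helper51.EclC.B58
import Pool.Agent.Lib_helper51.EclC.B59
import Pool.Agent.Lib_helper51.EclC.B60
import Pool.Agent.Lib_helper51.EclC.B61
import Pool.Agent.Lib_helper51.EclC.B62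
import Pool.Agent.Lib_helper51.EclC.B63
import Pool.Agent.Lib_helper51.EclC.B64
import Pool.Agent.Lib_helper51.EclC.B65
import Pool.Agent.Lib_helper51.EclC.B66
import Pool.Agent.Lib_helper51.EclC.B67
import Pool.Agent.Lib_helper51.EclC.B68
import Pool.Agent.Lib_helper51.EclC.B69
import Pool.Agent.Lib_helper51.EclC.B70
import Pool.Agent.Lib_helper51.EclC.B71
import Pool.Agent.Lib_helper51.EclC.B72
import Pool.Agent.Lib_helper51.EclC.B73
import Pool.Agent.Lib_helper51.EclC.B74
import Pool.Agent.Lib_helper51.EclC.B75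
import Pool.Agent.Lib_helper51.EclC.B76
import Pool.Agent.Lib_helper51.EclC.B77
import Pool.Agent.Lib_helper51.EclC.B78
import Pool.Agent.Lib_helper51.EclC.B79
import Pool.Agent.Lib_helper51.EclC.B80
import Pool.Agent.Lib_helper51.EclC.B81
import Pool.Agent.Lib_helper51.EclC.B82
import Pool.Agent.Lib_helper51.EclC.B83
import Pool.Agent.Lib_helper51.EclC.B84
import Pool.Agent.Lib_helper51.EclC.B85
import Pool.Agent.Lib_helper51.EclC.B86

/-! # All nodes are fine -/

set_option autoImplicit false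

namespace Pool.Agent.Ecl

theorem ok_b0 : BoxOK K.nM1M K.b0b :=
  boxOK1 (checkA_sound K.b0a) ((checkM_sound K.b0m1).trans (checkM_sound K.b0m2)) (checkZ_sound K.b0z (by decide +kernel))
theorem pt_b0 : Pts K.nM1M 0 (-2048) (2048) (-2048) (2048) :=
  pts_of_box ok_b0 (by decide +kernel)
theorem ok_b1 : BoxOK K.nM1M K.b1b :=
  boxOK1 (checkA_sound K.b1a) ((checkM_sound K.b1m1).trans (checkM_sound K.b1m2)) (checkZ_sound K.b1z (by decide +kernel))
theorem pt_b1 : Pts K.nM1M 1 (-2048) (-2048) (-2048) (2048) :=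
  pts_of_box ok_b1 (by decide +kernel)
theorem ok_b2 : BoxOK K.nM1M K.b2b :=
  boxOK1 (checkA_sound K.b2a) ((checkM_sound K.b2m1).trans (checkM_sound K.b2m2)) (checkZ_sound K.b2z (by decide +kernel))
theorem pt_b2 : Pts K.nM1M 2 (2048) (2048) (-2048) (-1024) :=
  pts_of_box ok_b2 (by decide +kernel)
theorem ok_b3 : BoxOK K.nM1M K.b3b :=
  boxOK1 (checkA_sound K.b3a) ((checkM_sound K.b3m1).trans (checkM_sound K.b3m2)) (checkZ_sound K.b3z (by decide +kernel))
theorem pt_b3 : Pts K.nM1M 2 (2048) (2048) (-1024) (0) :=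
  pts_of_box ok_b3 (by decide +kernel)
theorem ok_b4 : BoxOK K.nM1M K.b4b :=
  boxOK1 (checkA_sound K.b4a) ((checkM_sound K.b4m1).trans (checkM_sound K.b4m2)) (checkZ_sound K.b4z (by decide +kernel))
theorem pt_b4 : Pts K.nM1M 2 (2048) (2048) (0) (1024) :=
  pts_of_box ok_b4 (by decide +kernel)
theorem ok_b5 : BoxOK K.nM1M K.b5b :=
  boxOK1 (checkA_sound K.b5a) ((checkM_sound K.b5m1).trans (checkM_sound K.b5m2)) (checkZ_sound K.b5z (by decide +kernel))
theorem pt_b5 : Pts K.nM1M 2 (2048) (2048) (1024) (2048) :=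
  pts_of_box ok_b5 (by decide +kernel)
theorem ok_b6 : BoxOK K.nM1R K.b6b :=
  boxOK1 (checkA_sound K.b6a) (((checkM_sound K.b6m1).trans (checkM_sound K.b6m2)).trans (checkM_sound K.b6m3)) (checkZ_sound K.b6z (by decide +kernel))
theorem pt_b6 : Pts K.nM1R 0 (-2048) (0) (-2048) (2048) :=
  pts_of_box ok_b6 (by decide +kernel)
theorem ok_b7 : BoxOK K.nM1R K.b7b :=
  boxOK1 (checkA_sound K.b7a) (((checkM_sound K.b7m1).trans (checkM_sound K.b7m2)).trans (checkM_sound K.b7m3)) (checkZ_sound K.b7z (by decide +kernel))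
theorem pt_b7 : Pts K.nM1R 0 (0) (1024) (-2048) (2048) :=
  pts_of_box ok_b7 (by decide +kernel)
theorem ok_b8 : BoxOK K.nM1R K.b8b :=
  boxOK1 (checkA_sound K.b8a) (((checkM_sound K.b8m1).trans (checkM_sound K.b8m2)).trans (checkM_sound K.b8m3)) (checkZ_sound K.b8z (by decide +kernel))
theorem pt_b8 : Pts K.nM1R 0 (1024) (2048) (-2048) (2048) :=
  pts_of_box ok_b8 (by decide +kernel)
theorem ok_b9 : BoxOK K.nM1R K.b9b :=
  boxOK1 (checkA_sound K.b9a) (((checkM_sound K.b9m1).trans (checkM_sound K.b9m2)).trans (checkM_sound K.b9m3)) (checkZ_sound K.b9z (by decide +kernel))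
theorem pt_b9 : Pts K.nM1R 1 (-2048) (-2048) (-2048) (2048) :=
  pts_of_box ok_b9 (by decide +kernel)
theorem ok_b10 : BoxOK K.nM1R K.b10b :=
  boxOK1 (checkA_sound K.b10a) (((checkM_sound K.b10m1).trans (checkM_sound K.b10m2)).trans (checkM_sound K.b10m3)) (checkZ_sound K.b10z (by decide +kernel))
theorem pt_b10 : Pts K.nM1R 2 (2048) (2048) (-2048) (2048) :=
  pts_of_box ok_b10 (by decide +kernel)
theorem ok_b11 : BoxOK K.nM1L K.b11b :=
  boxOK1 (checkA_sound K.b11a) (checkM_sound K.b11m1) (checkZ_sound K.b11z (by decide +kernel))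
theorem pt_b11 : Pts K.nM1L 0 (-2048) (2048) (-2048) (2048) :=
  pts_of_box ok_b11 (by decide +kernel)
theorem ok_b12 : BoxOK K.nM1L K.b12b :=
  boxOK1 (checkA_sound K.b12a) (checkM_sound K.b12m1) (checkZ_sound K.b12z (by decide +kernel))
theorem pt_b12 : Pts K.nM1L 1 (-2048) (-2048) (-2048) (0) :=
  pts_of_box ok_b12 (by decide +kernel)
theorem ok_b13 : BoxOK K.nM1L K.b13b :=
  boxOK1 (checkA_sound K.b13a) (checkM_sound K.b13m1) (checkZ_sound K.b13z (by decide +kernel))
theorem pt_b13 : Pts K.nM1L 1 (-2048) (-2048) (0) (2048) :=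
  pts_of_box ok_b13 (by decide +kernel)
theorem ok_b14 : BoxOK K.nM1L K.b14b :=
  boxOK1 (checkA_sound K.b14a) (checkM_sound K.b14m1) (checkZ_sound K.b14z (by decide +kernel))
theorem pt_b14 : Pts K.nM1L 2 (2048) (2048) (-2048) (2048) :=
  pts_of_box ok_b14 (by decide +kernel)
theorem ok_b15 : BoxOK K.nM2M K.b15b :=
  boxOK1 (checkA_sound K.b15a) ((checkM_sound K.b15m1).trans (checkM_sound K.b15m2)) (checkZ_sound K.b15z (by decide +kernel))
theorem pt_b15 : Pts K.nM2M 0 (-2048) (0) (-2048) (2048) :=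
  pts_of_box ok_b15 (by decide +kernel)
theorem ok_b16 : BoxOK K.nM2M K.b16b :=
  boxOK1 (checkA_sound K.b16a) ((checkM_sound K.b16m1).trans (checkM_sound K.b16m2)) (checkZ_sound K.b16z (by decide +kernel))
theorem pt_b16 : Pts K.nM2M 0 (0) (2048) (-2048) (2048) :=
  pts_of_box ok_b16 (by decide +kernel)
theorem ok_b17 : BoxOK K.nM2M K.b17b :=
  boxOK1 (checkA_sound K.b17a) ((checkM_sound K.b17m1).trans (checkM_sound K.b17m2)) (checkZ_sound K.b17z (by decide +kernel))
theorem pt_b17 : Pts K.nM2M 1 (-2048) (-2048) (-2048) (2048) :=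
  pts_of_box ok_b17 (by decide +kernel)
theorem ok_b18 : BoxOK K.nM2M K.b18b :=
  boxOK1 (checkA_sound K.b18a) ((checkM_sound K.b18m1).trans (checkM_sound K.b18m2)) (checkZ_sound K.b18z (by decide +kernel))
theorem pt_b18 : Pts K.nM2M 2 (2048) (2048) (-2048) (2048) :=
  pts_of_box ok_b18 (by decide +kernel)
theorem ok_b19 : BoxOK K.nM2R K.b19b :=
  boxOK1 (checkA_sound K.b19a) (((checkM_sound K.b19m1).trans (checkM_sound K.b19m2)).trans (checkM_sound K.b19m3)) (checkZ_sound K.b19z (by decide +kernel))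
theorem pt_b19 : Pts K.nM2R 0 (-2048) (0) (-2048) (2048) :=
  pts_of_box ok_b19 (by decide +kernel)
theorem ok_b20 : BoxOK K.nM2R K.b20b :=
  boxOK1 (checkA_sound K.b20a) (((checkM_sound K.b20m1).trans (checkM_sound K.b20m2)).trans (checkM_sound K.b20m3)) (checkZ_sound K.b20z (by decide +kernel))
theorem pt_b20 : Pts K.nM2R 0 (0) (2048) (-2048) (2048) :=
  pts_of_box ok_b20 (by decide +kernel)
theorem ok_b21 : BoxOK K.nM2R K.b21b :=
  boxOK1 (checkA_sound K.b21a) (((checkM_sound K.b21m1).trans (checkM_sound K.b21m2)).trans (checkM_sound K.b21m3)) (checkZ_sound K.b21z (by decide +kernel))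
theorem pt_b21 : Pts K.nM2R 1 (-2048) (-2048) (-2048) (2048) :=
  pts_of_box ok_b21 (by decide +kernel)
theorem ok_b22 : BoxOK K.nM2R K.b22b :=
  boxOK1 (checkA_sound K.b22a) (((checkM_sound K.b22m1).trans (checkM_sound K.b22m2)).trans (checkM_sound K.b22m3)) (checkZ_sound K.b22z (by decide +kernel))
theorem pt_b22 : Pts K.nM2R 2 (2048) (2048) (-2048) (2048) :=
  pts_of_box ok_b22 (by decide +kernel)
theorem ok_b23 : BoxOK K.nM2L K.b23b :=
  boxOK1 (checkA_sound K.b23a) (checkM_sound K.b23m1) (checkZ_sound K.b23z (by decide +kernel))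
theorem pt_b23 : Pts K.nM2L 0 (-2048) (2048) (-2048) (2048) :=
  pts_of_box ok_b23 (by decide +kernel)
theorem ok_b24 : BoxOK K.nM2L K.b24b :=
  boxOK1 (checkA_sound K.b24a) (checkM_sound K.b24m1) (checkZ_sound K.b24z (by decide +kernel))
theorem pt_b24 : Pts K.nM2L 1 (-2048) (-2048) (-2048) (2048) :=
  pts_of_box ok_b24 (by decide +kernel)
theorem ok_b25 : BoxOK K.nM2L K.b25b :=
  boxOK1 (checkA_sound K.b25a) (checkM_sound K.b25m1) (checkZ_sound K.b25z (by decide +kernel))
theorem pt_b25 : Pts K.nM2L 2 (2048) (2048) (-2048) (2048) :=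
  pts_of_box ok_b25 (by decide +kernel)
theorem ok_b26 : BoxOK K.nR1M K.b26b :=
  boxOK1 (checkA_sound K.b26a) ((((checkM_sound K.b26m1).trans (checkM_sound K.b26m2)).trans (checkM_sound K.b26m3)).trans (checkM_sound K.b26m4)) (checkZ_sound K.b26z (by decide +kernel))
theorem pt_b26 : Pts K.nR1M 0 (-2048) (2048) (-2048) (2048) :=
  pts_of_box ok_b26 (by decide +kernel)
theorem ok_b27 : BoxOK K.nR1M K.b27b :=
  boxOK1 (checkA_sound K.b27a) ((((checkM_sound K.b27m1).trans (checkM_sound K.b27m2)).trans (checkM_sound K.b27m3)).trans (checkM_sound K.b27m4)) (checkZ_sound K.b27z (by decide +kernel))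
theorem pt_b27 : Pts K.nR1M 1 (-2048) (-2048) (-2048) (0) :=
  pts_of_box ok_b27 (by decide +kernel)
theorem ok_b28 : BoxOK K.nR1M K.b28b :=
  boxOK1 (checkA_sound K.b28a) ((((checkM_sound K.b28m1).trans (checkM_sound K.b28m2)).trans (checkM_sound K.b28m3)).trans (checkM_sound K.b28m4)) (checkZ_sound K.b28z (by decide +kernel))
theorem pt_b28 : Pts K.nR1M 1 (-2048) (-2048) (0) (1024) :=
  pts_of_box ok_b28 (by decide +kernel)
theorem ok_b29 : BoxOK K.nR1M K.b29b :=
  boxOK1 (checkA_sound K.b29a) ((((checkM_sound K.b29m1).trans (checkM_sound K.b29m2)).trans (checkM_sound K.b29m3)).trans (checkM_sound K.b29m4)) (checkZ_sound K.b29z (by decide +kernel))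
theorem pt_b29 : Pts K.nR1M 1 (-2048) (-2048) (1024) (2048) :=
  pts_of_box ok_b29 (by decide +kernel)
theorem ok_b30 : BoxOK K.nR1M K.b30b :=
  boxOK1 (checkA_sound K.b30a) ((((checkM_sound K.b30m1).trans (checkM_sound K.b30m2)).trans (checkM_sound K.b30m3)).trans (checkM_sound K.b30m4)) (checkZ_sound K.b30z (by decide +kernel))
theorem pt_b30 : Pts K.nR1M 2 (2048) (2048) (-2048) (2048) :=
  pts_of_box ok_b30 (by decide +kernel)
theorem ok_b31 : BoxOK K.nR1R K.b31b :=
  boxOK1 (checkA_sound K.b31a) ((((((checkM_sound K.b31m1).trans (checkM_sound K.b31m2)).trans (checkM_sound K.b31m3)).trans (checkM_sound K.b31m4)).trans (checkM_sound K.b31m5)).trans (checkM_sound K.b31m6)) (checkZ_sound K.b31z (by decide +kernel))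
theorem pt_b31 : Pts K.nR1R 0 (-2048) (-1024) (-2048) (0) :=
  pts_of_box ok_b31 (by decide +kernel)
theorem ok_b32 : BoxOK K.nR1R K.b32b :=
  boxOK1 (checkA_sound K.b32a) ((((((checkM_sound K.b32m1).trans (checkM_sound K.b32m2)).trans (checkM_sound K.b32m3)).trans (checkM_sound K.b32m4)).trans (checkM_sound K.b32m5)).trans (checkM_sound K.b32m6)) (checkZ_sound K.b32z (by decide +kernel))
theorem pt_b32 : Pts K.nR1R 0 (-2048) (-1024) (0) (2048) :=
  pts_of_box ok_b32 (by decide +kernel)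
theorem ok_b33 : BoxOK K.nR1R K.b33b :=
  boxOK1 (checkA_sound K.b33a) ((((((checkM_sound K.b33m1).trans (checkM_sound K.b33m2)).trans (checkM_sound K.b33m3)).trans (checkM_sound K.b33m4)).trans (checkM_sound K.b33m5)).trans (checkM_sound K.b33m6)) (checkZ_sound K.b33z (by decide +kernel))
theorem pt_b33 : Pts K.nR1R 0 (-1024) (0) (-2048) (0) :=
  pts_of_box ok_b33 (by decide +kernel)
theorem ok_b34 : BoxOK K.nR1R K.b34b :=
  boxOK1 (checkA_sound K.b34a) ((((((checkM_sound K.b34m1).trans (checkM_sound K.b34m2)).trans (checkM_sound K.b34m3)).trans (checkM_sound K.b34m4)).trans (checkM_sound K.b34m5)).trans (checkM_sound K.b34m6)) (checkZ_sound K.b34z (by decide +kernel))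
theorem pt_b34 : Pts K.nR1R 0 (-1024) (0) (0) (2048) :=
  pts_of_box ok_b34 (by decide +kernel)
theorem ok_b35 : BoxOK K.nR1R K.b35b :=
  boxOK1 (checkA_sound K.b35a) ((((((checkM_sound K.b35m1).trans (checkM_sound K.b35m2)).trans (checkM_sound K.b35m3)).trans (checkM_sound K.b35m4)).trans (checkM_sound K.b35m5)).trans (checkM_sound K.b35m6)) (checkZ_sound K.b35z (by decide +kernel))
theorem pt_b35 : Pts K.nR1R 0 (0) (2048) (-2048) (0) :=
  pts_of_box ok_b35 (by decide +kernel)
theorem ok_b36 : BoxOK K.nR1R K.b36b :=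
  boxOK1 (checkA_sound K.b36a) ((((((checkM_sound K.b36m1).trans (checkM_sound K.b36m2)).trans (checkM_sound K.b36m3)).trans (checkM_sound K.b36m4)).trans (checkM_sound K.b36m5)).trans (checkM_sound K.b36m6)) (checkZ_sound K.b36z (by decide +kernel))
theorem pt_b36 : Pts K.nR1R 0 (0) (2048) (0) (2048) :=
  pts_of_box ok_b36 (by decide +kernel)
theorem ok_b37 : BoxOK K.nR1R K.b37b :=
  boxOK1 (checkA_sound K.b37a) ((((((checkM_sound K.b37m1).trans (checkM_sound K.b37m2)).trans (checkM_sound K.b37m3)).trans (checkM_sound K.b37m4)).trans (checkM_sound K.b37m5)).trans (checkM_sound K.b37m6)) (checkZ_sound K.b37z (by decide +kernel))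
theorem pt_b37 : Pts K.nR1R 1 (-2048) (-2048) (-2048) (-1024) :=
  pts_of_box ok_b37 (by decide +kernel)
theorem ok_b38 : BoxOK K.nR1R K.b38b :=
  boxOK1 (checkA_sound K.b38a) ((((((checkM_sound K.b38m1).trans (checkM_sound K.b38m2)).trans (checkM_sound K.b38m3)).trans (checkM_sound K.b38m4)).trans (checkM_sound K.b38m5)).trans (checkM_sound K.b38m6)) (checkZ_sound K.b38z (by decide +kernel))
theorem pt_b38 : Pts K.nR1R 1 (-2048) (-2048) (-1024) (0) :=
  pts_of_box ok_b38 (by decide +kernel)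
theorem ok_b39 : BoxOK K.nR1R K.b39b :=
  boxOK1 (checkA_sound K.b39a) ((((((checkM_sound K.b39m1).trans (checkM_sound K.b39m2)).trans (checkM_sound K.b39m3)).trans (checkM_sound K.b39m4)).trans (checkM_sound K.b39m5)).trans (checkM_sound K.b39m6)) (checkZ_sound K.b39z (by decide +kernel))
theorem pt_b39 : Pts K.nR1R 1 (-2048) (-2048) (0) (1024) :=
  pts_of_box ok_b39 (by decide +kernel)
theorem ok_b40 : BoxOK K.nR1R K.b40b :=
  boxOK1 (checkA_sound K.b40a) ((((((checkM_sound K.b40m1).trans (checkM_sound K.b40m2)).trans (checkM_sound K.b40m3)).trans (checkM_sound K.b40m4)).trans (checkM_sound K.b40m5)).trans (checkM_sound K.b40m6)) (checkZ_sound K.b40z (by decide +kernel))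
theorem pt_b40 : Pts K.nR1R 1 (-2048) (-2048) (1024) (2048) :=
  pts_of_box ok_b40 (by decide +kernel)
theorem ok_b41 : BoxOK K.nR1R K.b41b :=
  boxOK1 (checkA_sound K.b41a) ((((((checkM_sound K.b41m1).trans (checkM_sound K.b41m2)).trans (checkM_sound K.b41m3)).trans (checkM_sound K.b41m4)).trans (checkM_sound K.b41m5)).trans (checkM_sound K.b41m6)) (checkZ_sound K.b41z (by decide +kernel))
theorem pt_b41 : Pts K.nR1R 2 (2048) (2048) (-2048) (0) :=
  pts_of_box ok_b41 (by decide +kernel)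
theorem ok_b42 : BoxOK K.nR1R K.b42b :=
  boxOK1 (checkA_sound K.b42a) ((((((checkM_sound K.b42m1).trans (checkM_sound K.b42m2)).trans (checkM_sound K.b42m3)).trans (checkM_sound K.b42m4)).trans (checkM_sound K.b42m5)).trans (checkM_sound K.b42m6)) (checkZ_sound K.b42z (by decide +kernel))
theorem pt_b42 : Pts K.nR1R 2 (2048) (2048) (0) (2048) :=
  pts_of_box ok_b42 (by decide +kernel)
theorem ok_b43 : BoxOK K.nR1L K.b43b :=
  boxOK1 (checkA_sound K.b43a) ((checkM_sound K.b43m1).trans (checkM_sound K.b43m2)) (checkZ_sound K.b43z (by decide +kernel))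
theorem pt_b43 : Pts K.nR1L 0 (-2048) (-1024) (-2048) (2048) :=
  pts_of_box ok_b43 (by decide +kernel)
theorem ok_b44 : BoxOK K.nR1L K.b44b :=
  boxOK1 (checkA_sound K.b44a) ((checkM_sound K.b44m1).trans (checkM_sound K.b44m2)) (checkZ_sound K.b44z (by decide +kernel))
theorem pt_b44 : Pts K.nR1L 0 (-1024) (0) (-2048) (2048) :=
  pts_of_box ok_b44 (by decide +kernel)
theorem ok_b45 : BoxOK K.nR1L K.b45b :=
  boxOK1 (checkA_sound K.b45a) (checkM_sound K.b45m1) (checkZ_sound K.b45z (by decide +kernel))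
theorem pt_b45 : Pts K.nR1L 0 (0) (1024) (-2048) (2048) :=
  pts_of_box ok_b45 (by decide +kernel)
theorem ok_b46 : BoxOK K.nR1L K.b46b :=
  boxOK1 (checkA_sound K.b46a) (checkM_sound K.b46m1) (checkZ_sound K.b46z (by decide +kernel))
theorem pt_b46 : Pts K.nR1L 0 (1024) (1536) (-2048) (2048) :=
  pts_of_box ok_b46 (by decide +kernel)
theorem ok_b47 : BoxOK K.nR1L K.b47b :=
  boxOK1 (checkA_sound K.b47a) (checkM_sound K.b47m1) (checkZ_sound K.b47z (by decide +kernel))
theorem pt_b47 : Pts K.nR1L 0 (1536) (1792) (-2048) (2048) :=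
  pts_of_box ok_b47 (by decide +kernel)
theorem ok_b48 : BoxOK K.nR1L K.b48b :=
  boxOK1 (checkA_sound K.b48a) (checkM_sound K.b48m1) (checkZ_sound K.b48z (by decide +kernel))
theorem pt_b48 : Pts K.nR1L 0 (1792) (2048) (-2048) (2048) :=
  pts_of_box ok_b48 (by decide +kernel)
theorem ok_b49 : BoxOK K.nR1L K.b49b :=
  boxOK1 (checkA_sound K.b49a) ((checkM_sound K.b49m1).trans (checkM_sound K.b49m2)) (checkZ_sound K.b49z (by decide +kernel))
theorem pt_b49 : Pts K.nR1L 1 (-2048) (-2048) (-2048) (0) :=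
  pts_of_box ok_b49 (by decide +kernel)
theorem ok_b50 : BoxOK K.nR1L K.b50b :=
  boxOK1 (checkA_sound K.b50a) ((checkM_sound K.b50m1).trans (checkM_sound K.b50m2)) (checkZ_sound K.b50z (by decide +kernel))
theorem pt_b50 : Pts K.nR1L 1 (-2048) (-2048) (0) (2048) :=
  pts_of_box ok_b50 (by decide +kernel)
theorem ok_b51 : BoxOK K.nR1L K.b51b :=
  boxOK1 (checkA_sound K.b51a) (checkM_sound K.b51m1) (checkZ_sound K.b51z (by decide +kernel))
theorem pt_b51 : Pts K.nR1L 2 (2048) (2048) (-2048) (2048) :=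
  pts_of_box ok_b51 (by decide +kernel)
theorem ok_b52 : BoxOK K.nR2M K.b52b :=
  boxOK1 (checkA_sound K.b52a) ((((checkM_sound K.b52m1).trans (checkM_sound K.b52m2)).trans (checkM_sound K.b52m3)).trans (checkM_sound K.b52m4)) (checkZ_sound K.b52z (by decide +kernel))
theorem pt_b52 : Pts K.nR2M 0 (-2048) (-1024) (-2048) (2048) :=
  pts_of_box ok_b52 (by decide +kernel)
theorem ok_b53 : BoxOK K.nR2M K.b53b :=
  boxOK1 (checkA_sound K.b53a) ((((checkM_sound K.b53m1).trans (checkM_sound K.b53m2)).trans (checkM_sound K.b53m3)).trans (checkM_sound K.b53m4)) (checkZ_sound K.b53z (by decide +kernel))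
theorem pt_b53 : Pts K.nR2M 0 (-1024) (0) (-2048) (2048) :=
  pts_of_box ok_b53 (by decide +kernel)
theorem ok_b54 : BoxOK K.nR2M K.b54b :=
  boxOK1 (checkA_sound K.b54a) ((((checkM_sound K.b54m1).trans (checkM_sound K.b54m2)).trans (checkM_sound K.b54m3)).trans (checkM_sound K.b54m4)) (checkZ_sound K.b54z (by decide +kernel))
theorem pt_b54 : Pts K.nR2M 0 (0) (1024) (-2048) (2048) :=
  pts_of_box ok_b54 (by decide +kernel)
theorem ok_b55 : BoxOK K.nR2M K.b55b :=
  boxOK1 (checkA_sound K.b55a) ((((checkM_sound K.b55m1).trans (checkM_sound K.b55m2)).trans (checkM_sound K.b55m3)).trans (checkM_sound K.b55m4)) (checkZ_sound K.b55z (by decide +kernel))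
theorem pt_b55 : Pts K.nR2M 0 (1024) (2048) (-2048) (2048) :=
  pts_of_box ok_b55 (by decide +kernel)
theorem ok_b56 : BoxOK K.nR2M K.b56b :=
  boxOK1 (checkA_sound K.b56a) ((((checkM_sound K.b56m1).trans (checkM_sound K.b56m2)).trans (checkM_sound K.b56m3)).trans (checkM_sound K.b56m4)) (checkZ_sound K.b56z (by decide +kernel))
theorem pt_b56 : Pts K.nR2M 1 (-2048) (-2048) (-2048) (2048) :=
  pts_of_box ok_b56 (by decide +kernel)
theorem ok_b57 : BoxOK K.nR2M K.b57b :=
  boxOK1 (checkA_sound K.b57a) ((((checkM_sound K.b57m1).trans (checkM_sound K.b57m2)).trans (checkM_sound K.b57m3)).trans (checkM_sound K.b57m4)) (checkZ_sound K.b57z (by decide +kernel))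
theorem pt_b57 : Pts K.nR2M 2 (2048) (2048) (-2048) (2048) :=
  pts_of_box ok_b57 (by decide +kernel)
theorem ok_b58 : BoxOK K.nR2R K.b58b :=
  boxOK1 (checkA_sound K.b58a) (((((checkM_sound K.b58m1).trans (checkM_sound K.b58m2)).trans (checkM_sound K.b58m3)).trans (checkM_sound K.b58m4)).trans (checkM_sound K.b58m5)) (checkZ_sound K.b58z (by decide +kernel))
theorem pt_b58 : Pts K.nR2R 0 (-2048) (-1024) (-2048) (2048) :=
  pts_of_box ok_b58 (by decide +kernel)
theorem ok_b59 : BoxOK K.nR2R K.b59b :=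
  boxOK1 (checkA_sound K.b59a) (((((checkM_sound K.b59m1).trans (checkM_sound K.b59m2)).trans (checkM_sound K.b59m3)).trans (checkM_sound K.b59m4)).trans (checkM_sound K.b59m5)) (checkZ_sound K.b59z (by decide +kernel))
theorem pt_b59 : Pts K.nR2R 0 (-1024) (0) (-2048) (2048) :=
  pts_of_box ok_b59 (by decide +kernel)
theorem ok_b60 : BoxOK K.nR2R K.b60b :=
  boxOK1 (checkA_sound K.b60a) (((((checkM_sound K.b60m1).trans (checkM_sound K.b60m2)).trans (checkM_sound K.b60m3)).trans (checkM_sound K.b60m4)).trans (checkM_sound K.b60m5)) (checkZ_sound K.b60z (by decide +kernel))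
theorem pt_b60 : Pts K.nR2R 0 (0) (2048) (-2048) (2048) :=
  pts_of_box ok_b60 (by decide +kernel)
theorem ok_b61 : BoxOK K.nR2R K.b61b :=
  boxOK1 (checkA_sound K.b61a) (((((checkM_sound K.b61m1).trans (checkM_sound K.b61m2)).trans (checkM_sound K.b61m3)).trans (checkM_sound K.b61m4)).trans (checkM_sound K.b61m5)) (checkZ_sound K.b61z (by decide +kernel))
theorem pt_b61 : Pts K.nR2R 1 (-2048) (-2048) (-2048) (2048) :=
  pts_of_box ok_b61 (by decide +kernel)
theorem ok_b62 : BoxOK K.nR2R K.b62b :=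
  boxOK1 (checkA_sound K.b62a) (((((checkM_sound K.b62m1).trans (checkM_sound K.b62m2)).trans (checkM_sound K.b62m3)).trans (checkM_sound K.b62m4)).trans (checkM_sound K.b62m5)) (checkZ_sound K.b62z (by decide +kernel))
theorem pt_b62 : Pts K.nR2R 2 (2048) (2048) (-2048) (2048) :=
  pts_of_box ok_b62 (by decide +kernel)
theorem ok_b63 : BoxOK K.nR2L K.b63b :=
  boxOK1 (checkA_sound K.b63a) ((checkM_sound K.b63m1).trans (checkM_sound K.b63m2)) (checkZ_sound K.b63z (by decide +kernel))
theorem pt_b63 : Pts K.nR2L 0 (-2048) (0) (-2048) (2048) :=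
  pts_of_box ok_b63 (by decide +kernel)
theorem ok_b64 : BoxOK K.nR2L K.b64b :=
  boxOK1 (checkA_sound K.b64a) ((checkM_sound K.b64m1).trans (checkM_sound K.b64m2)) (checkZ_sound K.b64z (by decide +kernel))
theorem pt_b64 : Pts K.nR2L 0 (0) (1024) (-2048) (2048) :=
  pts_of_box ok_b64 (by decide +kernel)
theorem ok_b65 : BoxOK K.nR2L K.b65b :=
  boxOK1 (checkA_sound K.b65a) ((checkM_sound K.b65m1).trans (checkM_sound K.b65m2)) (checkZ_sound K.b65z (by decide +kernel))
theorem pt_b65 : Pts K.nR2L 0 (1024) (1536) (-2048) (2048) :=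
  pts_of_box ok_b65 (by decide +kernel)
theorem ok_b66 : BoxOK K.nR2L K.b66b :=
  boxOK1 (checkA_sound K.b66a) ((checkM_sound K.b66m1).trans (checkM_sound K.b66m2)) (checkZ_sound K.b66z (by decide +kernel))
theorem pt_b66 : Pts K.nR2L 0 (1536) (1792) (-2048) (2048) :=
  pts_of_box ok_b66 (by decide +kernel)
theorem ok_b67 : BoxOK K.nR2L K.b67b :=
  boxOK1 (checkA_sound K.b67a) ((checkM_sound K.b67m1).trans (checkM_sound K.b67m2)) (checkZ_sound K.b67z (by decide +kernel))
theorem pt_b67 : Pts K.nR2L 0 (1792) (1920) (-2048) (2048) :=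
  pts_of_box ok_b67 (by decide +kernel)
theorem ok_b68 : BoxOK K.nR2L K.b68b :=
  boxOK1 (checkA_sound K.b68a) ((checkM_sound K.b68m1).trans (checkM_sound K.b68m2)) (checkZ_sound K.b68z (by decide +kernel))
theorem pt_b68 : Pts K.nR2L 0 (1920) (2048) (-2048) (2048) :=
  pts_of_box ok_b68 (by decide +kernel)
theorem ok_b69 : BoxOK K.nR2L K.b69b :=
  boxOK1 (checkA_sound K.b69a) ((checkM_sound K.b69m1).trans (checkM_sound K.b69m2)) (checkZ_sound K.b69z (by decide +kernel))
theorem pt_b69 : Pts K.nR2L 1 (-2048) (-2048) (-2048) (2048) :=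
  pts_of_box ok_b69 (by decide +kernel)
theorem ok_b70 : BoxOK K.nR2L K.b70b :=
  boxOK1 (checkA_sound K.b70a) ((checkM_sound K.b70m1).trans (checkM_sound K.b70m2)) (checkZ_sound K.b70z (by decide +kernel))
theorem pt_b70 : Pts K.nR2L 2 (2048) (2048) (-2048) (2048) :=
  pts_of_box ok_b70 (by decide +kernel)
theorem ok_b71 : BoxOK K.nL1M K.b71b :=
  boxOK0 (checkA_sound K.b71a) (checkZ_sound K.b71z (by decide +kernel))
theorem pt_b71 : Pts K.nL1M 0 (-2048) (2048) (-2048) (2048) :=
  pts_of_box ok_b71 (by decide +kernel)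
theorem ok_b72 : BoxOK K.nL1M K.b72b :=
  boxOK0 (checkA_sound K.b72a) (checkZ_sound K.b72z (by decide +kernel))
theorem pt_b72 : Pts K.nL1M 1 (-2048) (-2048) (-2048) (2048) :=
  pts_of_box ok_b72 (by decide +kernel)
theorem ok_b73 : BoxOK K.nL1M K.b73b :=
  boxOK0 (checkA_sound K.b73a) (checkZ_sound K.b73z (by decide +kernel))
theorem pt_b73 : Pts K.nL1M 2 (2048) (2048) (-2048) (2048) :=
  pts_of_box ok_b73 (by decide +kernel)
theorem ok_b74 : BoxOK K.nL1R K.b74b :=
  boxOK1 (checkA_sound K.b74a) ((checkM_sound K.b74m1).trans (checkM_sound K.b74m2)) (checkZ_sound K.b74z (by decide +kernel))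
theorem pt_b74 : Pts K.nL1R 0 (-2048) (-1024) (-2048) (2048) :=
  pts_of_box ok_b74 (by decide +kernel)
theorem ok_b75 : BoxOK K.nL1R K.b75b :=
  boxOK1 (checkA_sound K.b75a) ((checkM_sound K.b75m1).trans (checkM_sound K.b75m2)) (checkZ_sound K.b75z (by decide +kernel))
theorem pt_b75 : Pts K.nL1R 0 (-1024) (0) (-2048) (2048) :=
  pts_of_box ok_b75 (by decide +kernel)
theorem ok_b76 : BoxOK K.nL1R K.b76b :=
  boxOK1 (checkA_sound K.b76a) ((checkM_sound K.b76m1).trans (checkM_sound K.b76m2)) (checkZ_sound K.b76z (by decide +kernel))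
theorem pt_b76 : Pts K.nL1R 0 (0) (1024) (-2048) (2048) :=
  pts_of_box ok_b76 (by decide +kernel)
theorem ok_b77 : BoxOK K.nL1R K.b77b :=
  boxOK1 (checkA_sound K.b77a) ((checkM_sound K.b77m1).trans (checkM_sound K.b77m2)) (checkZ_sound K.b77z (by decide +kernel))
theorem pt_b77 : Pts K.nL1R 0 (1024) (2048) (-2048) (2048) :=
  pts_of_box ok_b77 (by decide +kernel)
theorem ok_b78 : BoxOK K.nL1R K.b78b :=
  boxOK1 (checkA_sound K.b78a) ((checkM_sound K.b78m1).trans (checkM_sound K.b78m2)) (checkZ_sound K.b78z (by decide +kernel))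
theorem pt_b78 : Pts K.nL1R 1 (-2048) (-2048) (-2048) (2048) :=
  pts_of_box ok_b78 (by decide +kernel)
theorem ok_b79 : BoxOK K.nL1R K.b79b :=
  boxOK1 (checkA_sound K.b79a) ((checkM_sound K.b79m1).trans (checkM_sound K.b79m2)) (checkZ_sound K.b79z (by decide +kernel))
theorem pt_b79 : Pts K.nL1R 2 (2048) (2048) (-2048) (2048) :=
  pts_of_box ok_b79 (by decide +kernel)
theorem ok_b80 : BoxOK K.nL1L K.b80b :=
  boxOK1 (checkA_sound K.b80a) (checkM_sound K.b80m1) (checkZ_sound K.b80z (by decide +kernel))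
theorem pt_b80 : Pts K.nL1L 0 (-2048) (2048) (-2048) (2048) :=
  pts_of_box ok_b80 (by decide +kernel)
theorem ok_b81 : BoxOK K.nL1L K.b81b :=
  boxOK1 (checkA_sound K.b81a) (checkM_sound K.b81m1) (checkZ_sound K.b81z (by decide +kernel))
theorem pt_b81 : Pts K.nL1L 1 (-2048) (-2048) (-2048) (2048) :=
  pts_of_box ok_b81 (by decide +kernel)
theorem ok_b82 : BoxOK K.nL1L K.b82b :=
  boxOK1 (checkA_sound K.b82a) (checkM_sound K.b82m1) (checkZ_sound K.b82z (by decide +kernel))
theorem pt_b82 : Pts K.nL1L 2 (2048) (2048) (-2048) (2048) :=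
  pts_of_box ok_b82 (by decide +kernel)
theorem ok_b83 : BoxOK K.nL2M K.b83b :=
  boxOK0 (checkA_sound K.b83a) (checkZ_sound K.b83z (by decide +kernel))
theorem pt_b83 : Pts K.nL2M 0 (-2048) (2048) (-2048) (2048) :=
  pts_of_box ok_b83 (by decide +kernel)
theorem ok_b84 : BoxOK K.nL2M K.b84b :=
  boxOK0 (checkA_sound K.b84a) (checkZ_sound K.b84z (by decide +kernel))
theorem pt_b84 : Pts K.nL2M 1 (-2048) (-2048) (-2048) (2048) :=
  pts_of_box ok_b84 (by decide +kernel)
theorem ok_b85 : BoxOK K.nL2M K.b85b :=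
  boxOK0 (checkA_sound K.b85a) (checkZ_sound K.b85z (by decide +kernel))
theorem pt_b85 : Pts K.nL2M 2 (2048) (2048) (-2048) (2048) :=
  pts_of_box ok_b85 (by decide +kernel)
theorem ok_b86 : BoxOK K.nL2R K.b86b :=
  boxOK1 (checkA_sound K.b86a) ((checkM_sound K.b86m1).trans (checkM_sound K.b86m2)) (checkZ_sound K.b86z (by decide +kernel))
theorem pt_b86 : Pts K.nL2R 0 (-2048) (-1024) (-2048) (2048) :=
  pts_of_box ok_b86 (by decide +kernel)
theorem ok_b87 : BoxOK K.nL2R K.b87b :=
  boxOK1 (checkA_sound K.b87a) ((checkM_sound K.b87m1).trans (checkM_sound K.b87m2)) (checkZ_sound K.b87z (by decide +kernel))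
theorem pt_b87 : Pts K.nL2R 0 (-1024) (0) (-2048) (2048) :=
  pts_of_box ok_b87 (by decide +kernel)
theorem ok_b88 : BoxOK K.nL2R K.b88b :=
  boxOK1 (checkA_sound K.b88a) ((checkM_sound K.b88m1).trans (checkM_sound K.b88m2)) (checkZ_sound K.b88z (by decide +kernel))
theorem pt_b88 : Pts K.nL2R 0 (0) (1024) (-2048) (2048) :=
  pts_of_box ok_b88 (by decide +kernel)
theorem ok_b89 : BoxOK K.nL2R K.b89b :=
  boxOK1 (checkA_sound K.b89a) ((checkM_sound K.b89m1).trans (checkM_sound K.b89m2)) (checkZ_sound K.b89z (by decide +kernel))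
theorem pt_b89 : Pts K.nL2R 0 (1024) (1536) (-2048) (2048) :=
  pts_of_box ok_b89 (by decide +kernel)
theorem ok_b90 : BoxOK K.nL2R K.b90b :=
  boxOK1 (checkA_sound K.b90a) ((checkM_sound K.b90m1).trans (checkM_sound K.b90m2)) (checkZ_sound K.b90z (by decide +kernel))
theorem pt_b90 : Pts K.nL2R 0 (1536) (2048) (-2048) (2048) :=
  pts_of_box ok_b90 (by decide +kernel)
theorem ok_b91 : BoxOK K.nL2R K.b91b :=
  boxOK1 (checkA_sound K.b91a) ((checkM_sound K.b91m1).trans (checkM_sound K.b91m2)) (checkZ_sound K.b91z (by decide +kernel))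
theorem pt_b91 : Pts K.nL2R 1 (-2048) (-2048) (-2048) (2048) :=
  pts_of_box ok_b91 (by decide +kernel)
theorem ok_b92 : BoxOK K.nL2R K.b92b :=
  boxOK1 (checkA_sound K.b92a) ((checkM_sound K.b92m1).trans (checkM_sound K.b92m2)) (checkZ_sound K.b92z (by decide +kernel))
theorem pt_b92 : Pts K.nL2R 2 (2048) (2048) (-2048) (2048) :=
  pts_of_box ok_b92 (by decide +kernel)
theorem ok_b93 : BoxOK K.nL2L K.b93b :=
  boxOK1 (checkA_sound K.b93a) (checkM_sound K.b93m1) (checkZ_sound K.b93z (by decide +kernel))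
theorem pt_b93 : Pts K.nL2L 0 (-2048) (0) (-2048) (-1024) :=
  pts_of_box ok_b93 (by decide +kernel)
theorem ok_b94 : BoxOK K.nL2L K.b94b :=
  boxOK1 (checkA_sound K.b94a) (checkM_sound K.b94m1) (checkZ_sound K.b94z (by decide +kernel))
theorem pt_b94 : Pts K.nL2L 0 (-2048) (2048) (-1024) (0) :=
  pts_of_box ok_b94 (by decide +kernel)
theorem ok_b95 : BoxOK K.nL2L K.b95b :=
  boxOK1 (checkA_sound K.b95a) (checkM_sound K.b95m1) (checkZ_sound K.b95z (by decide +kernel))
theorem pt_b95 : Pts K.nL2L 0 (-2048) (2048) (0) (2048) :=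
  pts_of_box ok_b95 (by decide +kernel)
theorem ok_b96 : BoxOK K.nL2L K.b96b :=
  boxOK1 (checkA_sound K.b96a) (checkM_sound K.b96m1) (checkZ_sound K.b96z (by decide +kernel))
theorem pt_b96 : Pts K.nL2L 0 (0) (2048) (-2048) (-1024) :=
  pts_of_box ok_b96 (by decide +kernel)
theorem ok_b97 : BoxOK K.nL2L K.b97b :=
  boxOK0 (checkA_sound K.b97a) (checkZ_sound K.b97z (by decide +kernel))
theorem pt_b97 : Pts K.nL2L 1 (-2048) (-2048) (-2048) (2048) :=
  pts_of_box ok_b97 (by decide +kernel)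
theorem ok_b98 : BoxOK K.nL2L K.b98b :=
  boxOK1 (checkA_sound K.b98a) (checkM_sound K.b98m1) (checkZ_sound K.b98z (by decide +kernel))
theorem pt_b98 : Pts K.nL2L 2 (2048) (2048) (-2048) (2048) :=
  pts_of_box ok_b98 (by decide +kernel)
theorem ok_b99 : BoxOK K.nMLa K.b99b :=
  boxOK1 (checkA_sound K.b99a) (checkM_sound K.b99m1) (checkZ_sound K.b99z (by decide +kernel))
theorem pt_b99 : Pts K.nMLa 0 (-2048) (2048) (-2048) (-1024) :=
  pts_of_box ok_b99 (by decide +kernel)
theorem ok_b100 : BoxOK K.nMLa K.b100b :=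
  boxOK1 (checkA_sound K.b100a) (checkM_sound K.b100m1) (checkZ_sound K.b100z (by decide +kernel))
theorem pt_b100 : Pts K.nMLa 0 (-2048) (2048) (-1024) (0) :=
  pts_of_box ok_b100 (by decide +kernel)
theorem ok_b101 : BoxOK K.nMLa K.b101b :=
  boxOK1 (checkA_sound K.b101a) ((checkM_sound K.b101m1).trans (checkM_sound K.b101m2)) (checkZ_sound K.b101z (by decide +kernel))
theorem pt_b101 : Pts K.nMLa 0 (-2048) (0) (0) (1024) :=
  pts_of_box ok_b101 (by decide +kernel)
theorem ok_b102 : BoxOK K.nMLa K.b102b :=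
  boxOK1 (checkA_sound K.b102a) ((checkM_sound K.b102m1).trans (checkM_sound K.b102m2)) (checkZ_sound K.b102z (by decide +kernel))
theorem pt_b102 : Pts K.nMLa 0 (-2048) (0) (1024) (2048) :=
  pts_of_box ok_b102 (by decide +kernel)
theorem ok_b103 : BoxOK K.nMLa K.b103b :=
  boxOK1 (checkA_sound K.b103a) (checkM_sound K.b103m1) (checkZ_sound K.b103z (by decide +kernel))
theorem pt_b103 : Pts K.nMLa 0 (0) (2048) (0) (1024) :=
  pts_of_box ok_b103 (by decide +kernel)
theorem ok_b104 : BoxOK K.nMLa K.b104b :=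
  boxOK1 (checkA_sound K.b104a) (checkM_sound K.b104m1) (checkZ_sound K.b104z (by decide +kernel))
theorem pt_b104 : Pts K.nMLa 0 (0) (2048) (1024) (2048) :=
  pts_of_box ok_b104 (by decide +kernel)
theorem ok_b105 : BoxOK K.nMLa K.b105b :=
  boxOK1 (checkA_sound K.b105a) ((checkM_sound K.b105m1).trans (checkM_sound K.b105m2)) (checkZ_sound K.b105z (by decide +kernel))
theorem pt_b105 : Pts K.nMLa 1 (-2048) (-2048) (-2048) (0) :=
  pts_of_box ok_b105 (by decide +kernel)
theorem ok_b106 : BoxOK K.nMLa K.b106b :=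
  boxOK1 (checkA_sound K.b106a) ((checkM_sound K.b106m1).trans (checkM_sound K.b106m2)) (checkZ_sound K.b106z (by decide +kernel))
theorem pt_b106 : Pts K.nMLa 1 (-2048) (-2048) (0) (2048) :=
  pts_of_box ok_b106 (by decide +kernel)
theorem ok_b107 : BoxOK K.nMLa K.b107b :=
  boxOK1 (checkA_sound K.b107a) (checkM_sound K.b107m1) (checkZ_sound K.b107z (by decide +kernel))
theorem pt_b107 : Pts K.nMLa 2 (2048) (2048) (-2048) (0) :=
  pts_of_box ok_b107 (by decide +kernel)
theorem ok_b108 : BoxOK K.nMLa K.b108b :=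
  boxOK1 (checkA_sound K.b108a) (checkM_sound K.b108m1) (checkZ_sound K.b108z (by decide +kernel))
theorem pt_b108 : Pts K.nMLa 2 (2048) (2048) (0) (2048) :=
  pts_of_box ok_b108 (by decide +kernel)
theorem ok_b109 : BoxOK K.nMLb K.b109b :=
  boxOK0 (checkA_sound K.b109a) (checkZ_sound K.b109z (by decide +kernel))
theorem pt_b109 : Pts K.nMLb 0 (-2048) (0) (-2048) (2048) :=
  pts_of_box ok_b109 (by decide +kernel)
theorem ok_b110 : BoxOK K.nMLb K.b110b :=
  boxOK0 (checkA_sound K.b110a) (checkZ_sound K.b110z (by decide +kernel))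
theorem pt_b110 : Pts K.nMLb 0 (0) (1024) (-2048) (2048) :=
  pts_of_box ok_b110 (by decide +kernel)
theorem ok_b111 : BoxOK K.nMLb K.b111b :=
  boxOK0 (checkA_sound K.b111a) (checkZ_sound K.b111z (by decide +kernel))
theorem pt_b111 : Pts K.nMLb 0 (1024) (1536) (-2048) (2048) :=
  pts_of_box ok_b111 (by decide +kernel)
theorem ok_b112 : BoxOK K.nMLb K.b112b :=
  boxOK0 (checkA_sound K.b112a) (checkZ_sound K.b112z (by decide +kernel))
theorem pt_b112 : Pts K.nMLb 0 (1536) (2048) (-2048) (2048) :=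
  pts_of_box ok_b112 (by decide +kernel)
theorem ok_b113 : BoxOK K.nMLb K.b113b :=
  boxOK0 (checkA_sound K.b113a) (checkZ_sound K.b113z (by decide +kernel))
theorem pt_b113 : Pts K.nMLb 1 (-2048) (-2048) (-2048) (2048) :=
  pts_of_box ok_b113 (by decide +kernel)
theorem ok_b114 : BoxOK K.nMLb K.b114b :=
  boxOK0 (checkA_sound K.b114a) (checkZ_sound K.b114z (by decide +kernel))
theorem pt_b114 : Pts K.nMLb 2 (2048) (2048) (-2048) (2048) :=
  pts_of_box ok_b114 (by decide +kernel)
theorem ok_b115 : BoxOK K.nLMc K.b115b :=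
  boxOK1 (checkA_sound K.b115a) ((checkM_sound K.b115m1).trans (checkM_sound K.b115m2)) (checkZ_sound K.b115z (by decide +kernel))
theorem pt_b115 : Pts K.nLMc 0 (-2048) (0) (-2048) (2048) :=
  pts_of_box ok_b115 (by decide +kernel)
theorem ok_b116 : BoxOK K.nLMc K.b116b :=
  boxOK1 (checkA_sound K.b116a) ((checkM_sound K.b116m1).trans (checkM_sound K.b116m2)) (checkZ_sound K.b116z (by decide +kernel))
theorem pt_b116 : Pts K.nLMc 0 (0) (1024) (-2048) (0) :=
  pts_of_box ok_b116 (by decide +kernel)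
theorem ok_b117 : BoxOK K.nLMc K.b117b :=
  boxOK1 (checkA_sound K.b117a) ((checkM_sound K.b117m1).trans (checkM_sound K.b117m2)) (checkZ_sound K.b117z (by decide +kernel))
theorem pt_b117 : Pts K.nLMc 0 (0) (1024) (0) (2048) :=
  pts_of_box ok_b117 (by decide +kernel)
theorem ok_b118 : BoxOK K.nLMc K.b118b :=
  boxOK1 (checkA_sound K.b118a) ((checkM_sound K.b118m1).trans (checkM_sound K.b118m2)) (checkZ_sound K.b118z (by decide +kernel))
theorem pt_b118 : Pts K.nLMc 0 (1024) (2048) (-2048) (0) :=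
  pts_of_box ok_b118 (by decide +kernel)
theorem ok_b119 : BoxOK K.nLMc K.b119b :=
  boxOK1 (checkA_sound K.b119a) ((checkM_sound K.b119m1).trans (checkM_sound K.b119m2)) (checkZ_sound K.b119z (by decide +kernel))
theorem pt_b119 : Pts K.nLMc 0 (1024) (2048) (0) (2048) :=
  pts_of_box ok_b119 (by decide +kernel)
theorem ok_b120 : BoxOK K.nLMc K.b120b :=
  boxOK1 (checkA_sound K.b120a) ((checkM_sound K.b120m1).trans (checkM_sound K.b120m2)) (checkZ_sound K.b120z (by decide +kernel))
theorem pt_b120 : Pts K.nLMc 1 (-2048) (-2048) (-2048) (2048) :=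
  pts_of_box ok_b120 (by decide +kernel)
theorem ok_b121 : BoxOK K.nLMc K.b121b :=
  boxOK1 (checkA_sound K.b121a) ((checkM_sound K.b121m1).trans (checkM_sound K.b121m2)) (checkZ_sound K.b121z (by decide +kernel))
theorem pt_b121 : Pts K.nLMc 2 (2048) (2048) (-2048) (2048) :=
  pts_of_box ok_b121 (by decide +kernel)
theorem ok_b122 : BoxOK K.nLMC K.b122b :=
  boxOK1 (checkA_sound K.b122a) (checkM_sound K.b122m1) (checkZ_sound K.b122z (by decide +kernel))
theorem pt_b122 : Pts K.nLMC 0 (-2048) (0) (-2048) (2048) :=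
  pts_of_box ok_b122 (by decide +kernel)
theorem ok_b123 : BoxOK K.nLMC K.b123b :=
  boxOK1 (checkA_sound K.b123a) (checkM_sound K.b123m1) (checkZ_sound K.b123z (by decide +kernel))
theorem pt_b123 : Pts K.nLMC 0 (0) (1024) (-2048) (2048) :=
  pts_of_box ok_b123 (by decide +kernel)
theorem ok_b124 : BoxOK K.nLMC K.b124b :=
  boxOK1 (checkA_sound K.b124a) ((checkM_sound K.b124m1).trans (checkM_sound K.b124m2)) (checkZ_sound K.b124z (by decide +kernel))
theorem pt_b124 : Pts K.nLMC 0 (1024) (2048) (-2048) (2048) :=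
  pts_of_box ok_b124 (by decide +kernel)
theorem ok_b125 : BoxOK K.nLMC K.b125b :=
  boxOK1 (checkA_sound K.b125a) (checkM_sound K.b125m1) (checkZ_sound K.b125z (by decide +kernel))
theorem pt_b125 : Pts K.nLMC 1 (-2048) (-2048) (-2048) (2048) :=
  pts_of_box ok_b125 (by decide +kernel)
theorem ok_b126 : BoxOK K.nLMC K.b126b :=
  boxOK1 (checkA_sound K.b126a) ((checkM_sound K.b126m1).trans (checkM_sound K.b126m2)) (checkZ_sound K.b126z (by decide +kernel))
theorem pt_b126 : Pts K.nLMC 2 (2048) (2048) (-2048) (2048) :=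
  pts_of_box ok_b126 (by decide +kernel)
theorem ok_b127 : BoxOK K.nLMd K.b127b :=
  boxOK1 (checkA_sound K.b127a) (checkM_sound K.b127m1) (checkZ_sound K.b127z (by decide +kernel))
theorem pt_b127 : Pts K.nLMd 0 (-2048) (-1536) (-2048) (0) :=
  pts_of_box ok_b127 (by decide +kernel)
theorem ok_b128 : BoxOK K.nLMd K.b128b :=
  boxOK1 (checkA_sound K.b128a) (checkM_sound K.b128m1) (checkZ_sound K.b128z (by decide +kernel))
theorem pt_b128 : Pts K.nLMd 0 (-2048) (-1024) (0) (2048) :=
  pts_of_box ok_b128 (by decide +kernel)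
theorem ok_b129 : BoxOK K.nLMd K.b129b :=
  boxOK1 (checkA_sound K.b129a) (checkM_sound K.b129m1) (checkZ_sound K.b129z (by decide +kernel))
theorem pt_b129 : Pts K.nLMd 0 (-1536) (-1024) (-2048) (0) :=
  pts_of_box ok_b129 (by decide +kernel)
theorem ok_b130 : BoxOK K.nLMd K.b130b :=
  boxOK1 (checkA_sound K.b130a) (checkM_sound K.b130m1) (checkZ_sound K.b130z (by decide +kernel))
theorem pt_b130 : Pts K.nLMd 0 (-1024) (0) (-2048) (-1024) :=
  pts_of_box ok_b130 (by decide +kernel)
theorem ok_b131 : BoxOK K.nLMd K.b131b :=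
  boxOK1 (checkA_sound K.b131a) (checkM_sound K.b131m1) (checkZ_sound K.b131z (by decide +kernel))
theorem pt_b131 : Pts K.nLMd 0 (-1024) (0) (-1024) (0) :=
  pts_of_box ok_b131 (by decide +kernel)
theorem ok_b132 : BoxOK K.nLMd K.b132b :=
  boxOK1 (checkA_sound K.b132a) (checkM_sound K.b132m1) (checkZ_sound K.b132z (by decide +kernel))
theorem pt_b132 : Pts K.nLMd 0 (-1024) (0) (0) (2048) :=
  pts_of_box ok_b132 (by decide +kernel)
theorem ok_b133 : BoxOK K.nLMd K.b133b :=
  boxOK1 (checkA_sound K.b133a) (checkM_sound K.b133m1) (checkZ_sound K.b133z (by decide +kernel))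
theorem pt_b133 : Pts K.nLMd 0 (0) (512) (-2048) (-1024) :=
  pts_of_box ok_b133 (by decide +kernel)
theorem ok_b134 : BoxOK K.nLMd K.b134b :=
  boxOK1 (checkA_sound K.b134a) (checkM_sound K.b134m1) (checkZ_sound K.b134z (by decide +kernel))
theorem pt_b134 : Pts K.nLMd 0 (0) (1024) (-1024) (0) :=
  pts_of_box ok_b134 (by decide +kernel)
theorem ok_b135 : BoxOK K.nLMd K.b135b :=
  boxOK1 (checkA_sound K.b135a) (checkM_sound K.b135m1) (checkZ_sound K.b135z (by decide +kernel))
theorem pt_b135 : Pts K.nLMd 0 (0) (1024) (0) (2048) :=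
  pts_of_box ok_b135 (by decide +kernel)
theorem ok_b136 : BoxOK K.nLMd K.b136b :=
  boxOK1 (checkA_sound K.b136a) (checkM_sound K.b136m1) (checkZ_sound K.b136z (by decide +kernel))
theorem pt_b136 : Pts K.nLMd 0 (512) (1024) (-2048) (-1024) :=
  pts_of_box ok_b136 (by decide +kernel)
theorem ok_b137 : BoxOK K.nLMd K.b137b :=
  boxOK1 (checkA_sound K.b137a) (checkM_sound K.b137m1) (checkZ_sound K.b137z (by decide +kernel))
theorem pt_b137 : Pts K.nLMd 0 (1024) (1536) (-2048) (2048) :=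
  pts_of_box ok_b137 (by decide +kernel)
theorem ok_b138 : BoxOK K.nLMd K.b138b :=
  boxOK1 (checkA_sound K.b138a) (checkM_sound K.b138m1) (checkZ_sound K.b138z (by decide +kernel))
theorem pt_b138 : Pts K.nLMd 0 (1536) (2048) (-2048) (2048) :=
  pts_of_box ok_b138 (by decide +kernel)
theorem ok_b139 : BoxOK K.nLMd K.b139b :=
  boxOK1 (checkA_sound K.b139a) (checkM_sound K.b139m1) (checkZ_sound K.b139z (by decide +kernel))
theorem pt_b139 : Pts K.nLMd 1 (-2048) (-2048) (-2048) (2048) :=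
  pts_of_box ok_b139 (by decide +kernel)
theorem ok_b140 : BoxOK K.nLMd K.b140b :=
  boxOK1 (checkA_sound K.b140a) (checkM_sound K.b140m1) (checkZ_sound K.b140z (by decide +kernel))
theorem pt_b140 : Pts K.nLMd 2 (2048) (2048) (-2048) (0) :=
  pts_of_box ok_b140 (by decide +kernel)
theorem ok_b141 : BoxOK K.nLMd K.b141b :=
  boxOK1 (checkA_sound K.b141a) (checkM_sound K.b141m1) (checkZ_sound K.b141z (by decide +kernel))
theorem pt_b141 : Pts K.nLMd 2 (2048) (2048) (0) (2048) :=
  pts_of_box ok_b141 (by decide +kernel)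
theorem ok_b142 : BoxOK K.nLLb K.b142b :=
  boxOK1 (checkA_sound K.b142a) (checkM_sound K.b142m1) (checkZ_sound K.b142z (by decide +kernel))
theorem pt_b142 : Pts K.nLLb 0 (-2048) (0) (-2048) (2048) :=
  pts_of_box ok_b142 (by decide +kernel)
theorem ok_b143 : BoxOK K.nLLb K.b143b :=
  boxOK1 (checkA_sound K.b143a) (checkM_sound K.b143m1) (checkZ_sound K.b143z (by decide +kernel))
theorem pt_b143 : Pts K.nLLb 0 (0) (2048) (-2048) (2048) :=
  pts_of_box ok_b143 (by decide +kernel)
theorem ok_b144 : BoxOK K.nLLb K.b144b :=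
  boxOK1 (checkA_sound K.b144a) (checkM_sound K.b144m1) (checkZ_sound K.b144z (by decide +kernel))
theorem pt_b144 : Pts K.nLLb 1 (-2048) (-2048) (-2048) (2048) :=
  pts_of_box ok_b144 (by decide +kernel)
theorem ok_b145 : BoxOK K.nLLb K.b145b :=
  boxOK1 (checkA_sound K.b145a) (checkM_sound K.b145m1) (checkZ_sound K.b145z (by decide +kernel))
theorem pt_b145 : Pts K.nLLb 2 (2048) (2048) (-2048) (2048) :=
  pts_of_box ok_b145 (by decide +kernel)
theorem ok_b146 : BoxOK K.nLLB K.b146b :=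
  boxOK1 (checkA_sound K.b146a) (checkM_sound K.b146m1) (checkZ_sound K.b146z (by decide +kernel))
theorem pt_b146 : Pts K.nLLB 0 (-2048) (2048) (-2048) (2048) :=
  pts_of_box ok_b146 (by decide +kernel)
theorem ok_b147 : BoxOK K.nLLB K.b147b :=
  boxOK1 (checkA_sound K.b147a) (checkM_sound K.b147m1) (checkZ_sound K.b147z (by decide +kernel))
theorem pt_b147 : Pts K.nLLB 1 (-2048) (-2048) (-2048) (2048) :=
  pts_of_box ok_b147 (by decide +kernel)
theorem ok_b148 : BoxOK K.nLLB K.b148b :=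
  boxOK1 (checkA_sound K.b148a) (checkM_sound K.b148m1) (checkZ_sound K.b148z (by decide +kernel))
theorem pt_b148 : Pts K.nLLB 2 (2048) (2048) (-2048) (2048) :=
  pts_of_box ok_b148 (by decide +kernel)
theorem ok_b149 : BoxOK K.nLLc K.b149b :=
  boxOK0 (checkA_sound K.b149a) (checkZ_sound K.b149z (by decide +kernel))
theorem pt_b149 : Pts K.nLLc 0 (-2048) (-1024) (-2048) (2048) :=
  pts_of_box ok_b149 (by decide +kernel)
theorem ok_b150 : BoxOK K.nLLc K.b150b :=
  boxOK0 (checkA_sound K.b150a) (checkZ_sound K.b150z (by decide +kernel))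
theorem pt_b150 : Pts K.nLLc 0 (-1024) (0) (-2048) (2048) :=
  pts_of_box ok_b150 (by decide +kernel)
theorem ok_b151 : BoxOK K.nLLc K.b151b :=
  boxOK0 (checkA_sound K.b151a) (checkZ_sound K.b151z (by decide +kernel))
theorem pt_b151 : Pts K.nLLc 0 (0) (1024) (-2048) (2048) :=
  pts_of_box ok_b151 (by decide +kernel)
theorem ok_b152 : BoxOK K.nLLc K.b152b :=
  boxOK0 (checkA_sound K.b152a) (checkZ_sound K.b152z (by decide +kernel))
theorem pt_b152 : Pts K.nLLc 0 (1024) (1536) (-2048) (2048) :=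
  pts_of_box ok_b152 (by decide +kernel)
theorem ok_b153 : BoxOK K.nLLc K.b153b :=
  boxOK0 (checkA_sound K.b153a) (checkZ_sound K.b153z (by decide +kernel))
theorem pt_b153 : Pts K.nLLc 0 (1536) (1792) (-2048) (2048) :=
  pts_of_box ok_b153 (by decide +kernel)
theorem ok_b154 : BoxOK K.nLLc K.b154b :=
  boxOK0 (checkA_sound K.b154a) (checkZ_sound K.b154z (by decide +kernel))
theorem pt_b154 : Pts K.nLLc 0 (1792) (2048) (-2048) (2048) :=
  pts_of_box ok_b154 (by decide +kernel)
theorem ok_b155 : BoxOK K.nLLc K.b155b :=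
  boxOK0 (checkA_sound K.b155a) (checkZ_sound K.b155z (by decide +kernel))
theorem pt_b155 : Pts K.nLLc 1 (-2048) (-2048) (-2048) (2048) :=
  pts_of_box ok_b155 (by decide +kernel)
theorem ok_b156 : BoxOK K.nLLc K.b156b :=
  boxOK0 (checkA_sound K.b156a) (checkZ_sound K.b156z (by decide +kernel))
theorem pt_b156 : Pts K.nLLc 2 (2048) (2048) (-2048) (0) :=
  pts_of_box ok_b156 (by decide +kernel)
theorem ok_b157 : BoxOK K.nLLc K.b157b :=
  boxOK0 (checkA_sound K.b157a) (checkZ_sound K.b157z (by decide +kernel))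
theorem pt_b157 : Pts K.nLLc 2 (2048) (2048) (0) (1024) :=
  pts_of_box ok_b157 (by decide +kernel)
theorem ok_b158 : BoxOK K.nLLc K.b158b :=
  boxOK0 (checkA_sound K.b158a) (checkZ_sound K.b158z (by decide +kernel))
theorem pt_b158 : Pts K.nLLc 2 (2048) (2048) (1024) (2048) :=
  pts_of_box ok_b158 (by decide +kernel)
theorem ok_b159 : BoxOK K.nL1E K.b159b :=
  boxOK1 (checkA_sound K.b159a) ((((((((((checkM_sound K.b159m1).trans (checkM_sound K.b159m2)).trans (checkM_sound K.b159m3)).trans (checkM_sound K.b159m4)).trans (checkM_sound K.b159m5)).trans (checkM_sound K.b159m6)).trans (checkM_sound K.b159m7)).trans (checkM_sound K.b159m8)).trans (checkM_sound K.b159m9)).trans (checkM_sound K.b159m10)) (checkZ_sound K.b159z (by decide +kernel))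
theorem pt_b159 : Pts K.nL1E 0 (-2048) (2048) (-2048) (2048) :=
  pts_of_box ok_b159 (by decide +kernel)
theorem ok_b160 : BoxOK K.nL1E K.b160b :=
  boxOK1 (checkA_sound K.b160a) ((((((((((checkM_sound K.b160m1).trans (checkM_sound K.b160m2)).trans (checkM_sound K.b160m3)).trans (checkM_sound K.b160m4)).trans (checkM_sound K.b160m5)).trans (checkM_sound K.b160m6)).trans (checkM_sound K.b160m7)).trans (checkM_sound K.b160m8)).trans (checkM_sound K.b160m9)).trans (checkM_sound K.b160m10)) (checkZ_sound K.b160z (by decide +kernel))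
theorem pt_b160 : Pts K.nL1E 1 (-2048) (-2048) (-2048) (2048) :=
  pts_of_box ok_b160 (by decide +kernel)
theorem ok_b161 : BoxOK K.nL1E K.b161b :=
  boxOK1 (checkA_sound K.b161a) (((((((((checkM_sound K.b161m1).trans (checkM_sound K.b161m2)).trans (checkM_sound K.b161m3)).trans (checkM_sound K.b161m4)).trans (checkM_sound K.b161m5)).trans (checkM_sound K.b161m6)).trans (checkM_sound K.b161m7)).trans (checkM_sound K.b161m8)).trans (checkM_sound K.b161m9)) (checkZ_sound K.b161z (by decide +kernel))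
theorem pt_b161 : Pts K.nL1E 2 (2048) (2048) (-2048) (2048) :=
  pts_of_box ok_b161 (by decide +kernel)
theorem ok_b162 : BoxOK K.nL1F K.b162b :=
  boxOK1 (checkA_sound K.b162a) ((((((((((checkM_sound K.b162m1).trans (checkM_sound K.b162m2)).trans (checkM_sound K.b162m3)).trans (checkM_sound K.b162m4)).trans (checkM_sound K.b162m5)).trans (checkM_sound K.b162m6)).trans (checkM_sound K.b162m7)).trans (checkM_sound K.b162m8)).trans (checkM_sound K.b162m9)).trans (checkM_sound K.b162m10)) (checkZ_sound K.b162z (by decide +kernel))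
theorem pt_b162 : Pts K.nL1F 0 (-2048) (2048) (-2048) (2048) :=
  pts_of_box ok_b162 (by decide +kernel)
theorem ok_b163 : BoxOK K.nL1F K.b163b :=
  boxOK1 (checkA_sound K.b163a) ((((((((((checkM_sound K.b163m1).trans (checkM_sound K.b163m2)).trans (checkM_sound K.b163m3)).trans (checkM_sound K.b163m4)).trans (checkM_sound K.b163m5)).trans (checkM_sound K.b163m6)).trans (checkM_sound K.b163m7)).trans (checkM_sound K.b163m8)).trans (checkM_sound K.b163m9)).trans (checkM_sound K.b163m10)) (checkZ_sound K.b163z (by decide +kernel))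
theorem pt_b163 : Pts K.nL1F 1 (-2048) (-2048) (-2048) (2048) :=
  pts_of_box ok_b163 (by decide +kernel)
theorem ok_b164 : BoxOK K.nL1F K.b164b :=
  boxOK1 (checkA_sound K.b164a) (((((((((checkM_sound K.b164m1).trans (checkM_sound K.b164m2)).trans (checkM_sound K.b164m3)).trans (checkM_sound K.b164m4)).trans (checkM_sound K.b164m5)).trans (checkM_sound K.b164m6)).trans (checkM_sound K.b164m7)).trans (checkM_sound K.b164m8)).trans (checkM_sound K.b164m9)) (checkZ_sound K.b164z (by decide +kernel))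
theorem pt_b164 : Pts K.nL1F 2 (2048) (2048) (-2048) (2048) :=
  pts_of_box ok_b164 (by decide +kernel)
theorem ok_b165 : BoxOK K.nSM K.b165b :=
  boxOK1 (checkA_sound K.b165a) ((((checkM_sound K.b165m1).trans (checkM_sound K.b165m2)).trans (checkM_sound K.b165m3)).trans (checkM_sound K.b165m4)) (checkZ_sound K.b165z (by decide +kernel))
theorem pt_b165 : Pts K.nSM 0 (-2048) (2048) (-2048) (2048) :=
  pts_of_box ok_b165 (by decide +kernel)
theorem ok_b166 : BoxOK K.nSM K.b166b :=
  boxOK1 (checkA_sound K.b166a) ((((checkM_sound K.b166m1).trans (checkM_sound K.b166m2)).trans (checkM_sound K.b166m3)).trans (checkM_sound K.b166m4)) (checkZ_sound K.b166z (by decide +kernel))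
theorem pt_b166 : Pts K.nSM 1 (-2048) (-2048) (-2048) (2048) :=
  pts_of_box ok_b166 (by decide +kernel)
theorem ok_b167 : BoxOK K.nSM K.b167b :=
  boxOK1 (checkA_sound K.b167a) ((((checkM_sound K.b167m1).trans (checkM_sound K.b167m2)).trans (checkM_sound K.b167m3)).trans (checkM_sound K.b167m4)) (checkZ_sound K.b167z (by decide +kernel))
theorem pt_b167 : Pts K.nSM 2 (2048) (2048) (-2048) (2048) :=
  pts_of_box ok_b167 (by decide +kernel)
theorem ok_b168 : BoxOK K.nSR K.b168b :=
  boxOK1 (checkA_sound K.b168a) (((((checkM_sound K.b168m1).trans (checkM_sound K.b168m2)).trans (checkM_sound K.b168m3)).trans (checkM_sound K.b168m4)).trans (checkM_sound K.b168m5)) (checkZ_sound K.b168z (by decide +kernel))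
theorem pt_b168 : Pts K.nSR 0 (-2048) (0) (-2048) (2048) :=
  pts_of_box ok_b168 (by decide +kernel)
theorem ok_b169 : BoxOK K.nSR K.b169b :=
  boxOK1 (checkA_sound K.b169a) ((((((checkM_sound K.b169m1).trans (checkM_sound K.b169m2)).trans (checkM_sound K.b169m3)).trans (checkM_sound K.b169m4)).trans (checkM_sound K.b169m5)).trans (checkM_sound K.b169m6)) (checkZ_sound K.b169z (by decide +kernel))
theorem pt_b169 : Pts K.nSR 0 (0) (2048) (-2048) (2048) :=
  pts_of_box ok_b169 (by decide +kernel)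
theorem ok_b170 : BoxOK K.nSR K.b170b :=
  boxOK1 (checkA_sound K.b170a) (((((checkM_sound K.b170m1).trans (checkM_sound K.b170m2)).trans (checkM_sound K.b170m3)).trans (checkM_sound K.b170m4)).trans (checkM_sound K.b170m5)) (checkZ_sound K.b170z (by decide +kernel))
theorem pt_b170 : Pts K.nSR 1 (-2048) (-2048) (-2048) (2048) :=
  pts_of_box ok_b170 (by decide +kernel)
theorem ok_b171 : BoxOK K.nSR K.b171b :=
  boxOK1 (checkA_sound K.b171a) ((((((checkM_sound K.b171m1).trans (checkM_sound K.b171m2)).trans (checkM_sound K.b171m3)).trans (checkM_sound K.b171m4)).trans (checkM_sound K.b171m5)).trans (checkM_sound K.b171m6)) (checkZ_sound K.b171z (by decide +kernel))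
theorem pt_b171 : Pts K.nSR 2 (2048) (2048) (-2048) (2048) :=
  pts_of_box ok_b171 (by decide +kernel)
theorem ok_b172 : BoxOK K.nSL K.b172b :=
  boxOK1 (checkA_sound K.b172a) ((((((((((checkM_sound K.b172m1).trans (checkM_sound K.b172m2)).trans (checkM_sound K.b172m3)).trans (checkM_sound K.b172m4)).trans (checkM_sound K.b172m5)).trans (checkM_sound K.b172m6)).trans (checkM_sound K.b172m7)).trans (checkM_sound K.b172m8)).trans (checkM_sound K.b172m9)).trans (checkM_sound K.b172m10)) (checkZ_sound K.b172z (by decide +kernel))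
theorem pt_b172 : Pts K.nSL 0 (-2048) (-1024) (-2048) (2048) :=
  pts_of_box ok_b172 (by decide +kernel)
theorem ok_b173 : BoxOK K.nSL K.b173b :=
  boxOK1 (checkA_sound K.b173a) ((((((((((checkM_sound K.b173m1).trans (checkM_sound K.b173m2)).trans (checkM_sound K.b173m3)).trans (checkM_sound K.b173m4)).trans (checkM_sound K.b173m5)).trans (checkM_sound K.b173m6)).trans (checkM_sound K.b173m7)).trans (checkM_sound K.b173m8)).trans (checkM_sound K.b173m9)).trans (checkM_sound K.b173m10)) (checkZ_sound K.b173z (by decide +kernel))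
theorem pt_b173 : Pts K.nSL 0 (-1024) (0) (-2048) (2048) :=
  pts_of_box ok_b173 (by decide +kernel)
theorem ok_b174 : BoxOK K.nSL K.b174b :=
  boxOK1 (checkA_sound K.b174a) ((((((((((checkM_sound K.b174m1).trans (checkM_sound K.b174m2)).trans (checkM_sound K.b174m3)).trans (checkM_sound K.b174m4)).trans (checkM_sound K.b174m5)).trans (checkM_sound K.b174m6)).trans (checkM_sound K.b174m7)).trans (checkM_sound K.b174m8)).trans (checkM_sound K.b174m9)).trans (checkM_sound K.b174m10)) (checkZ_sound K.b174z (by decide +kernel))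
theorem pt_b174 : Pts K.nSL 0 (0) (1024) (-2048) (2048) :=
  pts_of_box ok_b174 (by decide +kernel)
theorem ok_b175 : BoxOK K.nSL K.b175b :=
  boxOK1 (checkA_sound K.b175a) ((((((((((checkM_sound K.b175m1).trans (checkM_sound K.b175m2)).trans (checkM_sound K.b175m3)).trans (checkM_sound K.b175m4)).trans (checkM_sound K.b175m5)).trans (checkM_sound K.b175m6)).trans (checkM_sound K.b175m7)).trans (checkM_sound K.b175m8)).trans (checkM_sound K.b175m9)).trans (checkM_sound K.b175m10)) (checkZ_sound K.b175z (by decide +kernel))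
theorem pt_b175 : Pts K.nSL 0 (1024) (2048) (-2048) (2048) :=
  pts_of_box ok_b175 (by decide +kernel)
theorem ok_b176 : BoxOK K.nSL K.b176b :=
  boxOK1 (checkA_sound K.b176a) ((((((((((checkM_sound K.b176m1).trans (checkM_sound K.b176m2)).trans (checkM_sound K.b176m3)).trans (checkM_sound K.b176m4)).trans (checkM_sound K.b176m5)).trans (checkM_sound K.b176m6)).trans (checkM_sound K.b176m7)).trans (checkM_sound K.b176m8)).trans (checkM_sound K.b176m9)).trans (checkM_sound K.b176m10)) (checkZ_sound K.b176z (by decide +kernel))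
theorem pt_b176 : Pts K.nSL 1 (-2048) (-2048) (-2048) (2048) :=
  pts_of_box ok_b176 (by decide +kernel)
theorem ok_b177 : BoxOK K.nSL K.b177b :=
  boxOK1 (checkA_sound K.b177a) ((((((((((checkM_sound K.b177m1).trans (checkM_sound K.b177m2)).trans (checkM_sound K.b177m3)).trans (checkM_sound K.b177m4)).trans (checkM_sound K.b177m5)).trans (checkM_sound K.b177m6)).trans (checkM_sound K.b177m7)).trans (checkM_sound K.b177m8)).trans (checkM_sound K.b177m9)).trans (checkM_sound K.b177m10)) (checkZ_sound K.b177z (by decide +kernel))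
theorem pt_b177 : Pts K.nSL 2 (2048) (2048) (-2048) (2048) :=
  pts_of_box ok_b177 (by decide +kernel)
theorem ok_b178 : BoxOK K.nSE K.b178b :=
  boxOK1 (checkA_sound K.b178a) ((((((checkM_sound K.b178m1).trans (checkM_sound K.b178m2)).trans (checkM_sound K.b178m3)).trans (checkM_sound K.b178m4)).trans (checkM_sound K.b178m5)).trans (checkM_sound K.b178m6)) (checkZ_sound K.b178z (by decide +kernel))
theorem pt_b178 : Pts K.nSE 0 (-2048) (2048) (-2048) (2048) :=
  pts_of_box ok_b178 (by decide +kernel)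
theorem ok_b179 : BoxOK K.nSE K.b179b :=
  boxOK1 (checkA_sound K.b179a) ((((((checkM_sound K.b179m1).trans (checkM_sound K.b179m2)).trans (checkM_sound K.b179m3)).trans (checkM_sound K.b179m4)).trans (checkM_sound K.b179m5)).trans (checkM_sound K.b179m6)) (checkZ_sound K.b179z (by decide +kernel))
theorem pt_b179 : Pts K.nSE 1 (-2048) (-2048) (-2048) (2048) :=
  pts_of_box ok_b179 (by decide +kernel)
theorem ok_b180 : BoxOK K.nSE K.b180b :=
  boxOK1 (checkA_sound K.b180a) ((((((checkM_sound K.b180m1).trans (checkM_sound K.b180m2)).trans (checkM_sound K.b180m3)).trans (checkM_sound K.b180m4)).trans (checkM_sound K.b180m5)).trans (checkM_sound K.b180m6)) (checkZ_sound K.b180z (by decide +kernel))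
theorem pt_b180 : Pts K.nSE 2 (2048) (2048) (-2048) (2048) :=
  pts_of_box ok_b180 (by decide +kernel)
theorem ok_b181 : BoxOK K.nM1E K.b181b :=
  boxOK1 (checkA_sound K.b181a) ((((checkM_sound K.b181m1).trans (checkM_sound K.b181m2)).trans (checkM_sound K.b181m3)).trans (checkM_sound K.b181m4)) (checkZ_sound K.b181z (by decide +kernel))
theorem pt_b181 : Pts K.nM1E 0 (-2048) (2048) (-2048) (2048) :=
  pts_of_box ok_b181 (by decide +kernel)
theorem ok_b182 : BoxOK K.nM1E K.b182b :=
  boxOK1 (checkA_sound K.b182a) ((((checkM_sound K.b182m1).trans (checkM_sound K.b182m2)).trans (checkM_sound K.b182m3)).trans (checkM_sound K.b182m4)) (checkZ_sound K.b182z (by decide +kernel))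
theorem pt_b182 : Pts K.nM1E 1 (-2048) (-2048) (-2048) (2048) :=
  pts_of_box ok_b182 (by decide +kernel)
theorem ok_b183 : BoxOK K.nM1E K.b183b :=
  boxOK1 (checkA_sound K.b183a) ((((checkM_sound K.b183m1).trans (checkM_sound K.b183m2)).trans (checkM_sound K.b183m3)).trans (checkM_sound K.b183m4)) (checkZ_sound K.b183z (by decide +kernel))
theorem pt_b183 : Pts K.nM1E 2 (2048) (2048) (-2048) (0) :=
  pts_of_box ok_b183 (by decide +kernel)
theorem ok_b184 : BoxOK K.nM1E K.b184b :=
  boxOK1 (checkA_sound K.b184a) ((((checkM_sound K.b184m1).trans (checkM_sound K.b184m2)).trans (checkM_sound K.b184m3)).trans (checkM_sound K.b184m4)) (checkZ_sound K.b184z (by decide +kernel))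
theorem pt_b184 : Pts K.nM1E 2 (2048) (2048) (0) (2048) :=
  pts_of_box ok_b184 (by decide +kernel)
theorem ok_b185 : BoxOK K.nM2E K.b185b :=
  boxOK1 (checkA_sound K.b185a) ((((checkM_sound K.b185m1).trans (checkM_sound K.b185m2)).trans (checkM_sound K.b185m3)).trans (checkM_sound K.b185m4)) (checkZ_sound K.b185z (by decide +kernel))
theorem pt_b185 : Pts K.nM2E 0 (-2048) (2048) (-2048) (2048) :=
  pts_of_box ok_b185 (by decide +kernel)
theorem ok_b186 : BoxOK K.nM2E K.b186b :=
  boxOK1 (checkA_sound K.b186a) ((((checkM_sound K.b186m1).trans (checkM_sound K.b186m2)).trans (checkM_sound K.b186m3)).trans (checkM_sound K.b186m4)) (checkZ_sound K.b186z (by decide +kernel))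
theorem pt_b186 : Pts K.nM2E 1 (-2048) (-2048) (-2048) (2048) :=
  pts_of_box ok_b186 (by decide +kernel)
theorem ok_b187 : BoxOK K.nM2E K.b187b :=
  boxOK1 (checkA_sound K.b187a) ((((checkM_sound K.b187m1).trans (checkM_sound K.b187m2)).trans (checkM_sound K.b187m3)).trans (checkM_sound K.b187m4)) (checkZ_sound K.b187z (by decide +kernel))
theorem pt_b187 : Pts K.nM2E 2 (2048) (2048) (-2048) (2048) :=
  pts_of_box ok_b187 (by decide +kernel)
theorem ok_b188 : BoxOK K.nR1E K.b188b :=
  boxOK1 (checkA_sound K.b188a) (((((checkM_sound K.b188m1).trans (checkM_sound K.b188m2)).trans (checkM_sound K.b188m3)).trans (checkM_sound K.b188m4)).trans (checkM_sound K.b188m5)) (checkZ_sound K.b188z (by decide +kernel))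
theorem pt_b188 : Pts K.nR1E 0 (-2048) (2048) (-2048) (0) :=
  pts_of_box ok_b188 (by decide +kernel)
theorem ok_b189 : BoxOK K.nR1E K.b189b :=
  boxOK1 (checkA_sound K.b189a) ((((((checkM_sound K.b189m1).trans (checkM_sound K.b189m2)).trans (checkM_sound K.b189m3)).trans (checkM_sound K.b189m4)).trans (checkM_sound K.b189m5)).trans (checkM_sound K.b189m6)) (checkZ_sound K.b189z (by decide +kernel))
theorem pt_b189 : Pts K.nR1E 0 (-2048) (2048) (0) (2048) :=
  pts_of_box ok_b189 (by decide +kernel)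
theorem ok_b190 : BoxOK K.nR1E K.b190b :=
  boxOK1 (checkA_sound K.b190a) (((((checkM_sound K.b190m1).trans (checkM_sound K.b190m2)).trans (checkM_sound K.b190m3)).trans (checkM_sound K.b190m4)).trans (checkM_sound K.b190m5)) (checkZ_sound K.b190z (by decide +kernel))
theorem pt_b190 : Pts K.nR1E 1 (-2048) (-2048) (-2048) (-1024) :=
  pts_of_box ok_b190 (by decide +kernel)
theorem ok_b191 : BoxOK K.nR1E K.b191b :=
  boxOK1 (checkA_sound K.b191a) (((((checkM_sound K.b191m1).trans (checkM_sound K.b191m2)).trans (checkM_sound K.b191m3)).trans (checkM_sound K.b191m4)).trans (checkM_sound K.b191m5)) (checkZ_sound K.b191z (by decide +kernel))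
theorem pt_b191 : Pts K.nR1E 1 (-2048) (-2048) (-1024) (0) :=
  pts_of_box ok_b191 (by decide +kernel)
theorem ok_b192 : BoxOK K.nR1E K.b192b :=
  boxOK1 (checkA_sound K.b192a) (((((checkM_sound K.b192m1).trans (checkM_sound K.b192m2)).trans (checkM_sound K.b192m3)).trans (checkM_sound K.b192m4)).trans (checkM_sound K.b192m5)) (checkZ_sound K.b192z (by decide +kernel))
theorem pt_b192 : Pts K.nR1E 1 (-2048) (-2048) (0) (1024) :=
  pts_of_box ok_b192 (by decide +kernel)
theorem ok_b193 : BoxOK K.nR1E K.b193b :=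
  boxOK1 (checkA_sound K.b193a) (((((checkM_sound K.b193m1).trans (checkM_sound K.b193m2)).trans (checkM_sound K.b193m3)).trans (checkM_sound K.b193m4)).trans (checkM_sound K.b193m5)) (checkZ_sound K.b193z (by decide +kernel))
theorem pt_b193 : Pts K.nR1E 1 (-2048) (-2048) (1024) (2048) :=
  pts_of_box ok_b193 (by decide +kernel)
theorem ok_b194 : BoxOK K.nR1E K.b194b :=
  boxOK1 (checkA_sound K.b194a) (((((checkM_sound K.b194m1).trans (checkM_sound K.b194m2)).trans (checkM_sound K.b194m3)).trans (checkM_sound K.b194m4)).trans (checkM_sound K.b194m5)) (checkZ_sound K.b194z (by decide +kernel))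
theorem pt_b194 : Pts K.nR1E 2 (2048) (2048) (-2048) (0) :=
  pts_of_box ok_b194 (by decide +kernel)
theorem ok_b195 : BoxOK K.nR1E K.b195b :=
  boxOK1 (checkA_sound K.b195a) ((((((checkM_sound K.b195m1).trans (checkM_sound K.b195m2)).trans (checkM_sound K.b195m3)).trans (checkM_sound K.b195m4)).trans (checkM_sound K.b195m5)).trans (checkM_sound K.b195m6)) (checkZ_sound K.b195z (by decide +kernel))
theorem pt_b195 : Pts K.nR1E 2 (2048) (2048) (0) (2048) :=
  pts_of_box ok_b195 (by decide +kernel)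
theorem ok_b196 : BoxOK K.nR2E K.b196b :=
  boxOK1 (checkA_sound K.b196a) (((((checkM_sound K.b196m1).trans (checkM_sound K.b196m2)).trans (checkM_sound K.b196m3)).trans (checkM_sound K.b196m4)).trans (checkM_sound K.b196m5)) (checkZ_sound K.b196z (by decide +kernel))
theorem pt_b196 : Pts K.nR2E 0 (-2048) (2048) (-2048) (2048) :=
  pts_of_box ok_b196 (by decide +kernel)
theorem ok_b197 : BoxOK K.nR2E K.b197b :=
  boxOK1 (checkA_sound K.b197a) (((((checkM_sound K.b197m1).trans (checkM_sound K.b197m2)).trans (checkM_sound K.b197m3)).trans (checkM_sound K.b197m4)).trans (checkM_sound K.b197m5)) (checkZ_sound K.b197z (by decide +kernel))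
theorem pt_b197 : Pts K.nR2E 1 (-2048) (-2048) (-2048) (2048) :=
  pts_of_box ok_b197 (by decide +kernel)
theorem ok_b198 : BoxOK K.nR2E K.b198b :=
  boxOK1 (checkA_sound K.b198a) (((((checkM_sound K.b198m1).trans (checkM_sound K.b198m2)).trans (checkM_sound K.b198m3)).trans (checkM_sound K.b198m4)).trans (checkM_sound K.b198m5)) (checkZ_sound K.b198z (by decide +kernel))
theorem pt_b198 : Pts K.nR2E 2 (2048) (2048) (-2048) (2048) :=
  pts_of_box ok_b198 (by decide +kernel)
theorem ok_b199 : BoxOK K.nL2E K.b199b :=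
  boxOK1 (checkA_sound K.b199a) (((((((((((checkM_sound K.b199m1).trans (checkM_sound K.b199m2)).trans (checkM_sound K.b199m3)).trans (checkM_sound K.b199m4)).trans (checkM_sound K.b199m5)).trans (checkM_sound K.b199m6)).trans (checkM_sound K.b199m7)).trans (checkM_sound K.b199m8)).trans (checkM_sound K.b199m9)).trans (checkM_sound K.b199m10)).trans (checkM_sound K.b199m11)) (checkZ_sound K.b199z (by decide +kernel))
theorem pt_b199 : Pts K.nL2E 0 (-2048) (2048) (-2048) (0) :=
  pts_of_box ok_b199 (by decide +kernel)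
theorem ok_b200 : BoxOK K.nL2E K.b200b :=
  boxOK1 (checkA_sound K.b200a) (((((((((((checkM_sound K.b200m1).trans (checkM_sound K.b200m2)).trans (checkM_sound K.b200m3)).trans (checkM_sound K.b200m4)).trans (checkM_sound K.b200m5)).trans (checkM_sound K.b200m6)).trans (checkM_sound K.b200m7)).trans (checkM_sound K.b200m8)).trans (checkM_sound K.b200m9)).trans (checkM_sound K.b200m10)).trans (checkM_sound K.b200m11)) (checkZ_sound K.b200z (by decide +kernel))
theorem pt_b200 : Pts K.nL2E 0 (-2048) (2048) (0) (2048) :=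
  pts_of_box ok_b200 (by decide +kernel)
theorem ok_b201 : BoxOK K.nL2E K.b201b :=
  boxOK1 (checkA_sound K.b201a) (((((((((((checkM_sound K.b201m1).trans (checkM_sound K.b201m2)).trans (checkM_sound K.b201m3)).trans (checkM_sound K.b201m4)).trans (checkM_sound K.b201m5)).trans (checkM_sound K.b201m6)).trans (checkM_sound K.b201m7)).trans (checkM_sound K.b201m8)).trans (checkM_sound K.b201m9)).trans (checkM_sound K.b201m10)).trans (checkM_sound K.b201m11)) (checkZ_sound K.b201z (by decide +kernel))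
theorem pt_b201 : Pts K.nL2E 1 (-2048) (-2048) (-2048) (0) :=
  pts_of_box ok_b201 (by decide +kernel)
theorem ok_b202 : BoxOK K.nL2E K.b202b :=
  boxOK1 (checkA_sound K.b202a) (((((((((((checkM_sound K.b202m1).trans (checkM_sound K.b202m2)).trans (checkM_sound K.b202m3)).trans (checkM_sound K.b202m4)).trans (checkM_sound K.b202m5)).trans (checkM_sound K.b202m6)).trans (checkM_sound K.b202m7)).trans (checkM_sound K.b202m8)).trans (checkM_sound K.b202m9)).trans (checkM_sound K.b202m10)).trans (checkM_sound K.b202m11)) (checkZ_sound K.b202z (by decide +kernel))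
theorem pt_b202 : Pts K.nL2E 1 (-2048) (-2048) (0) (2048) :=
  pts_of_box ok_b202 (by decide +kernel)
theorem ok_b203 : BoxOK K.nL2E K.b203b :=
  boxOK1 (checkA_sound K.b203a) ((((((((((checkM_sound K.b203m1).trans (checkM_sound K.b203m2)).trans (checkM_sound K.b203m3)).trans (checkM_sound K.b203m4)).trans (checkM_sound K.b203m5)).trans (checkM_sound K.b203m6)).trans (checkM_sound K.b203m7)).trans (checkM_sound K.b203m8)).trans (checkM_sound K.b203m9)).trans (checkM_sound K.b203m10)) (checkZ_sound K.b203z (by decide +kernel))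
theorem pt_b203 : Pts K.nL2E 2 (2048) (2048) (-2048) (0) :=
  pts_of_box ok_b203 (by decide +kernel)
theorem ok_b204 : BoxOK K.nL2E K.b204b :=
  boxOK1 (checkA_sound K.b204a) ((((((((((checkM_sound K.b204m1).trans (checkM_sound K.b204m2)).trans (checkM_sound K.b204m3)).trans (checkM_sound K.b204m4)).trans (checkM_sound K.b204m5)).trans (checkM_sound K.b204m6)).trans (checkM_sound K.b204m7)).trans (checkM_sound K.b204m8)).trans (checkM_sound K.b204m9)).trans (checkM_sound K.b204m10)) (checkZ_sound K.b204z (by decide +kernel))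
theorem pt_b204 : Pts K.nL2E 2 (2048) (2048) (0) (2048) :=
  pts_of_box ok_b204 (by decide +kernel)
theorem ok_b205 : BoxOK K.nL2F K.b205b :=
  boxOK1 (checkA_sound K.b205a) (((((((((checkM_sound K.b205m1).trans (checkM_sound K.b205m2)).trans (checkM_sound K.b205m3)).trans (checkM_sound K.b205m4)).trans (checkM_sound K.b205m5)).trans (checkM_sound K.b205m6)).trans (checkM_sound K.b205m7)).trans (checkM_sound K.b205m8)).trans (checkM_sound K.b205m9)) (checkZ_sound K.b205z (by decide +kernel))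
theorem pt_b205 : Pts K.nL2F 0 (-2048) (2048) (-2048) (2048) :=
  pts_of_box ok_b205 (by decide +kernel)
theorem ok_b206 : BoxOK K.nL2F K.b206b :=
  boxOK1 (checkA_sound K.b206a) (((((((((checkM_sound K.b206m1).trans (checkM_sound K.b206m2)).trans (checkM_sound K.b206m3)).trans (checkM_sound K.b206m4)).trans (checkM_sound K.b206m5)).trans (checkM_sound K.b206m6)).trans (checkM_sound K.b206m7)).trans (checkM_sound K.b206m8)).trans (checkM_sound K.b206m9)) (checkZ_sound K.b206z (by decide +kernel))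
theorem pt_b206 : Pts K.nL2F 1 (-2048) (-2048) (-2048) (2048) :=
  pts_of_box ok_b206 (by decide +kernel)
theorem ok_b207 : BoxOK K.nL2F K.b207b :=
  boxOK1 (checkA_sound K.b207a) (((((((((checkM_sound K.b207m1).trans (checkM_sound K.b207m2)).trans (checkM_sound K.b207m3)).trans (checkM_sound K.b207m4)).trans (checkM_sound K.b207m5)).trans (checkM_sound K.b207m6)).trans (checkM_sound K.b207m7)).trans (checkM_sound K.b207m8)).trans (checkM_sound K.b207m9)) (checkZ_sound K.b207z (by decide +kernel))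
theorem pt_b207 : Pts K.nL2F 2 (2048) (2048) (-2048) (2048) :=
  pts_of_box ok_b207 (by decide +kernel)
theorem ok_M1M : NodeOK K.nM1M :=
  nodeOK_of (by decide +kernel) (by decide +kernel)
    pt_b0
    pt_b1
    (Pts.splitV (Pts.splitV pt_b2 pt_b3) (Pts.splitV pt_b4 pt_b5))
theorem ok_M1R : NodeOK K.nM1R :=
  nodeOK_of (by decide +kernel) (by decide +kernel)
    (Pts.splitU pt_b6 (Pts.splitU pt_b7 pt_b8))
    pt_b9
    pt_b10
theorem ok_M1L : NodeOK K.nM1L :=
  nodeOK_of (by decide +kernel) (by decide +kernel)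
    pt_b11
    (Pts.splitV pt_b12 pt_b13)
    pt_b14
theorem ok_M2M : NodeOK K.nM2M :=
  nodeOK_of (by decide +kernel) (by decide +kernel)
    (Pts.splitU pt_b15 pt_b16)
    pt_b17
    pt_b18
theorem ok_M2R : NodeOK K.nM2R :=
  nodeOK_of (by decide +kernel) (by decide +kernel)
    (Pts.splitU pt_b19 pt_b20)
    pt_b21
    pt_b22
theorem ok_M2L : NodeOK K.nM2L :=
  nodeOK_of (by decide +kernel) (by decide +kernel)
    pt_b23
    pt_b24
    pt_b25
theorem ok_R1M : NodeOK K.nR1M :=
  nodeOK_of (by decide +kernel) (by decide +kernel)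
    pt_b26
    (Pts.splitV pt_b27 (Pts.splitV pt_b28 pt_b29))
    pt_b30
theorem ok_R1R : NodeOK K.nR1R :=
  nodeOK_of (by decide +kernel) (by decide +kernel)
    (Pts.splitU (Pts.splitU (Pts.splitV pt_b31 pt_b32) (Pts.splitV pt_b33 pt_b34)) (Pts.splitV pt_b35 pt_b36))
    (Pts.splitV (Pts.splitV pt_b37 pt_b38) (Pts.splitV pt_b39 pt_b40))
    (Pts.splitV pt_b41 pt_b42)
theorem ok_R1L : NodeOK K.nR1L :=
  nodeOK_of (by decide +kernel) (by decide +kernel)
    (Pts.splitU (Pts.splitU pt_b43 pt_b44) (Pts.splitU pt_b45 (Pts.splitU pt_b46 (Pts.splitU pt_b47 pt_b48))))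
    (Pts.splitV pt_b49 pt_b50)
    pt_b51
theorem ok_R2M : NodeOK K.nR2M :=
  nodeOK_of (by decide +kernel) (by decide +kernel)
    (Pts.splitU (Pts.splitU pt_b52 pt_b53) (Pts.splitU pt_b54 pt_b55))
    pt_b56
    pt_b57
theorem ok_R2R : NodeOK K.nR2R :=
  nodeOK_of (by decide +kernel) (by decide +kernel)
    (Pts.splitU (Pts.splitU pt_b58 pt_b59) pt_b60)
    pt_b61
    pt_b62
theorem ok_R2L : NodeOK K.nR2L :=
  nodeOK_of (by decide +kernel) (by decide +kernel)
    (Pts.splitU pt_b63 (Pts.splitU pt_b64 (Pts.splitU pt_b65 (Pts.splitU pt_b66 (Pts.splitU pt_b67 pt_b68)))))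
    pt_b69
    pt_b70
theorem ok_L1M : NodeOK K.nL1M :=
  nodeOK_of (by decide +kernel) (by decide +kernel)
    pt_b71
    pt_b72
    pt_b73
theorem ok_L1R : NodeOK K.nL1R :=
  nodeOK_of (by decide +kernel) (by decide +kernel)
    (Pts.splitU (Pts.splitU pt_b74 pt_b75) (Pts.splitU pt_b76 pt_b77))
    pt_b78
    pt_b79
theorem ok_L1L : NodeOK K.nL1L :=
  nodeOK_of (by decide +kernel) (by decide +kernel)
    pt_b80
    pt_b81
    pt_b82
theorem ok_L2M : NodeOK K.nL2M :=
  nodeOK_of (by decide +kernel) (by decide +kernel)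
    pt_b83
    pt_b84
    pt_b85
theorem ok_L2R : NodeOK K.nL2R :=
  nodeOK_of (by decide +kernel) (by decide +kernel)
    (Pts.splitU (Pts.splitU pt_b86 pt_b87) (Pts.splitU pt_b88 (Pts.splitU pt_b89 pt_b90)))
    pt_b91
    pt_b92
theorem ok_L2L : NodeOK K.nL2L :=
  nodeOK_of (by decide +kernel) (by decide +kernel)
    (Pts.splitV (Pts.splitV (Pts.splitU pt_b93 pt_b96) pt_b94) pt_b95)
    pt_b97
    pt_b98
theorem ok_MLa : NodeOK K.nMLa :=
  nodeOK_of (by decide +kernel) (by decide +kernel)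
    (Pts.splitV (Pts.splitV pt_b99 pt_b100) (Pts.splitU (Pts.splitV pt_b101 pt_b102) (Pts.splitV pt_b103 pt_b104)))
    (Pts.splitV pt_b105 pt_b106)
    (Pts.splitV pt_b107 pt_b108)
theorem ok_MLb : NodeOK K.nMLb :=
  nodeOK_of (by decide +kernel) (by decide +kernel)
    (Pts.splitU pt_b109 (Pts.splitU pt_b110 (Pts.splitU pt_b111 pt_b112)))
    pt_b113
    pt_b114
theorem ok_LMc : NodeOK K.nLMc :=
  nodeOK_of (by decide +kernel) (by decide +kernel)
    (Pts.splitU pt_b115 (Pts.splitU (Pts.splitV pt_b116 pt_b117) (Pts.splitV pt_b118 pt_b119)))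
    pt_b120
    pt_b121
theorem ok_LMC : NodeOK K.nLMC :=
  nodeOK_of (by decide +kernel) (by decide +kernel)
    (Pts.splitU pt_b122 (Pts.splitU pt_b123 pt_b124))
    pt_b125
    pt_b126
theorem ok_LMd : NodeOK K.nLMd :=
  nodeOK_of (by decide +kernel) (by decide +kernel)
    (Pts.splitU (Pts.splitU (Pts.splitV (Pts.splitU pt_b127 pt_b129) pt_b128) (Pts.splitV (Pts.splitV pt_b130 pt_b131) pt_b132)) (Pts.splitU (Pts.splitV (Pts.splitV (Pts.splitU pt_b133 pt_b136) pt_b134) pt_b135) (Pts.splitU pt_b137 pt_b138)))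
    pt_b139
    (Pts.splitV pt_b140 pt_b141)
theorem ok_LLb : NodeOK K.nLLb :=
  nodeOK_of (by decide +kernel) (by decide +kernel)
    (Pts.splitU pt_b142 pt_b143)
    pt_b144
    pt_b145
theorem ok_LLB : NodeOK K.nLLB :=
  nodeOK_of (by decide +kernel) (by decide +kernel)
    pt_b146
    pt_b147
    pt_b148
theorem ok_LLc : NodeOK K.nLLc :=
  nodeOK_of (by decide +kernel) (by decide +kernel)
    (Pts.splitU (Pts.splitU pt_b149 pt_b150) (Pts.splitU pt_b151 (Pts.splitU pt_b152 (Pts.splitU pt_b153 pt_b154))))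
    pt_b155
    (Pts.splitV pt_b156 (Pts.splitV pt_b157 pt_b158))
theorem ok_L1E : NodeOK K.nL1E :=
  nodeOK_of (by decide +kernel) (by decide +kernel)
    pt_b159
    pt_b160
    pt_b161
theorem ok_L1F : NodeOK K.nL1F :=
  nodeOK_of (by decide +kernel) (by decide +kernel)
    pt_b162
    pt_b163
    pt_b164
theorem ok_SM : NodeOK K.nSM :=
  nodeOK_of (by decide +kernel) (by decide +kernel)
    pt_b165
    pt_b166
    pt_b167
theorem ok_SR : NodeOK K.nSR :=
  nodeOK_of (by decide +kernel) (by decide +kernel)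
    (Pts.splitU pt_b168 pt_b169)
    pt_b170
    pt_b171
theorem ok_SL : NodeOK K.nSL :=
  nodeOK_of (by decide +kernel) (by decide +kernel)
    (Pts.splitU (Pts.splitU pt_b172 pt_b173) (Pts.splitU pt_b174 pt_b175))
    pt_b176
    pt_b177
theorem ok_SE : NodeOK K.nSE :=
  nodeOK_of (by decide +kernel) (by decide +kernel)
    pt_b178
    pt_b179
    pt_b180
theorem ok_M1E : NodeOK K.nM1E :=
  nodeOK_of (by decide +kernel) (by decide +kernel)
    pt_b181
    pt_b182
    (Pts.splitV pt_b183 pt_b184)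
theorem ok_M2E : NodeOK K.nM2E :=
  nodeOK_of (by decide +kernel) (by decide +kernel)
    pt_b185
    pt_b186
    pt_b187
theorem ok_R1E : NodeOK K.nR1E :=
  nodeOK_of (by decide +kernel) (by decide +kernel)
    (Pts.splitV pt_b188 pt_b189)
    (Pts.splitV (Pts.splitV pt_b190 pt_b191) (Pts.splitV pt_b192 pt_b193))
    (Pts.splitV pt_b194 pt_b195)
theorem ok_R2E : NodeOK K.nR2E :=
  nodeOK_of (by decide +kernel) (by decide +kernel)
    pt_b196
    pt_b197
    pt_b198
theorem ok_L2E : NodeOK K.nL2E :=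
  nodeOK_of (by decide +kernel) (by decide +kernel)
    (Pts.splitV pt_b199 pt_b200)
    (Pts.splitV pt_b201 pt_b202)
    (Pts.splitV pt_b203 pt_b204)
theorem ok_L2F : NodeOK K.nL2F :=
  nodeOK_of (by decide +kernel) (by decide +kernel)
    pt_b205
    pt_b206
    pt_b207

end Pool.Agent.Ecl
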