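import Pool.Agent.Lib_helper34.EclG.Graph
import Pool.Agent.Lib_helper51.EclC.All

/-! # Statement (I) -/

set_option autoImplicit false

namespace Pool.Agent.Ecl

theorem all_nodes : ∀ n ∈ gNodes, NodeOK n := by
  simp only [gNodes, List.mem_cons, List.not_mem_nil, or_false, forall_eq_or_imp, forall_eq]
  exact ⟨ok_M1M, ok_M1R, ok_M1L, ok_M2M, ok_M2R, ok_M2L, ok_R1M, ok_R1R, ok_R1L, ok_R2M, ok_R2R,
    ok_R2L, ok_L1M, ok_L1R, ok_L1L, ok_L2M, ok_L2R, ok_L2L, ok_MLa, ok_MLb, ok_LMc, ok_LMC, ok_LMd,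
    ok_LLb, ok_LLB, ok_LLc, ok_L1E, ok_L1F, ok_SM, ok_SR, ok_SL, ok_SE, ok_M1E, ok_M2E, ok_R1E,
    ok_R2E, ok_L2E, ok_L2F⟩

/-- **Statement (I)**: the itineraries of the collinear three-body problem (with collisions of
neighbours regularised) that are needed for Part II. -/
theorem statementI : StatementI := statementI_of_nodes all_nodes

end Pool.Agent.Ecl
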